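import Pool.Agent.N422.GB.Stm
import Pool.Agent.N422.LG.LIN2
import Pool.Agent.H442R2.KF.Bv

/-!
GB/LOW4 (helper323 for the project GB of helper422): the linear sieve lower bound for the primes `h ≤ U` with `n + h`
free of small primes, exponent `4 + ε`. The core is the one of `Pool.Agent.N422.LG.LIN2` (helper31), with the density
`1 / (p - 1)`; the remainder is bounded with the theorem of Bombieri and Vinogradov.
-/

set_option autoImplicit false

namespace Pool.Agent.N422.GB.LOW4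

open Finset Pool.Agent.W23.DC Filter Pool.Agent.Y660.RP
open Pool.Agent.N422.LG.LIN2 (exJg exbg Iw Iw_ge arith_loww)

/-- the density of the multiples -/
noncomputable def gq (p : ℕ) : ℝ := 1 / ((p : ℝ) - 1)

theorem gq_nonneg {p : ℕ} (hp : p.Prime) : 0 ≤ gq p := by
  have h2 : (2 : ℝ) ≤ p := by exact_mod_cast hp.two_le
  unfold gq
  apply div_nonneg (by norm_num)
  linarith

theorem merw (ε w η : ℝ) (hε : 0 < ε) (hw : w ≤ 1) (hη : 0 < η) : ∃ N₀ : ℕ, ∀ N : ℕ, N₀ ≤ N →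
    Mer (pr N ε w) (tt N) gq ε w η := mer_of Pool.Agent.W378.DC.MP ε w η hε hw hη

theorem prod_lew {N : ℕ} {ε w η : ℝ} (hε : 0 < ε) (hεw : ε ≤ w) (hw : w ≤ 1 / 2) (hη : η ≤ 1)
    (h : Mer (pr N ε w) (tt N) gq ε w η) :
    ∏ p ∈ pr N ε w, (1 + gq p) ≤ 2 / ε := by
  classical
  have h1 := h ε w le_rfl hεw le_rfl
  rw [pr_sub N ε w ε w le_rfl le_rfl] at h1
  have h2 := (abs_le.1 h1).2
  have hw0 : 0 < w := hε.trans_le hεw
  have h3 : ∏ p ∈ pr N ε w, (1 + gq p) ≤ Real.exp (∑ p ∈ pr N ε w, gq p) := by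
    rw [Real.exp_sum]
    apply Finset.prod_le_prod
    · intro p hp
      have := gq_nonneg (mem_pr.1 hp).2.1
      linarith
    · intro p _
      have := Real.add_one_le_exp (gq p)
      linarith
  refine h3.trans ?_
  calc Real.exp (∑ p ∈ pr N ε w, gq p) ≤ Real.exp (Real.log (w / ε) + 1) := by
        apply Real.exp_le_exp.2
        linarith
    _ = w / ε * Real.exp 1 := by
        rw [Real.exp_add, Real.exp_log (by positivity)]
    _ ≤ (1 / 2) / ε * 3 := by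
        have := Real.exp_one_lt_d9
        gcongr
        linarith
    _ ≤ 2 / ε := by
        rw [div_mul_eq_mul_div]
        apply div_le_div_of_nonneg_right _ hε.le
        norm_num

open Classical in
theorem core : ∃ (A0 : ℝ) (C0 : ℕ), 0 < A0 ∧ ∀ z : ℕ, C0 ≤ z → ∀ w τ κ η : ℝ, 0 < η → 0 < κ →
  κ ≤ w → 2 * w ≤ τ → τ ≤ 4 * w → τ + κ ≤ 1 →
  ∃ ε₁ : ℝ, 0 < ε₁ ∧ ε₁ ≤ w / 2 ∧ ∃ N0 : ℕ, 2 ≤ N0 ∧ ∀ N : ℕ, N0 ≤ N → (z : ℝ) < (N : ℝ) ^ ε₁ ∧
  ∀ (ι : Type) (Ω : Finset ι) (v : ι → ℕ) (A : ℝ), 0 ≤ A →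
  ε₁ * (A * ∏ p ∈ P1 N z ε₁, (1 - gq p)) *
      (A0 * (Real.log (τ / w - 1) / τ) - η) -
      Real.log N * ∑ q ∈ Lv' z ((N : ℝ) ^ (τ + κ)), Rr Ω v gq A q ≤
    ∑ i ∈ Ω.filter (fun i => ∀ p ∈ P1 N z ε₁, ¬ p ∣ v i), Iw N ε₁ w (v i) := by
  obtain ⟨A0, F, f, hS⟩ := Pool.Agent.W366.DC.SFX
  obtain ⟨C0, hC1, hfund⟩ := fund
  have hA0 := hS.pos
  refine ⟨A0, C0, hA0, ?_⟩
  intro z hz w τ κ η hη hκ hκw hwτ hτw hτκ
  have hw0 : 0 < w := hκ.trans_le hκw
  have hτ0 : 0 < τ := by linarith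
  have hw2 : w ≤ 1 / 2 := by linarith
  obtain ⟨b, hb, hb2⟩ := exbg C0 hC1 κ η hκ hη
  have hb1 : 1 ≤ b := hC1.trans hb
  have hC0r : (1 : ℝ) ≤ C0 := by exact_mod_cast hC1
  have hbr : (1 : ℝ) ≤ b := by exact_mod_cast hb1
  have hCb : (1 : ℝ) ≤ C0 * b := by nlinarith
  obtain ⟨ε, hεd⟩ : ∃ ε : ℝ, ε = κ / (2 * C0 * b) := ⟨_, rfl⟩
  rw [← hεd] at hb2
  have hε : 0 < ε := by rw [hεd]; positivity
  have hεκ : ε ≤ κ / 2 := by
    rw [hεd]
    apply div_le_div_of_nonneg_left hκ.le (by norm_num)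
    nlinarith
  have hlev : 2 * ε * ((C0 * b : ℕ) : ℝ) ≤ κ := by
    rw [hεd]
    push_cast
    have : 2 * (κ / (2 * (C0 : ℝ) * b)) * (C0 * b) = κ := by
      field_simp
    rw [this]
  obtain ⟨β, hβd⟩ : ∃ β : ℝ, β = (1 / 2 : ℝ) ^ b := ⟨_, rfl⟩
  have hβ0 : 0 ≤ β := by rw [hβd]; positivity
  have hβε : β * (2 / ε) ≤ ε * (η / 8) := by
    rw [mul_div_assoc', div_le_iff₀ hε, hβd]
    calc (1 / 2 : ℝ) ^ b * 2 ≤ (ε ^ 2 * (η / 16)) * 2 := by
          apply mul_le_mul_of_nonneg_right hb2 (by norm_num)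
      _ = ε * (η / 8) * ε := by ring
  refine ⟨ε, hε, by linarith, ?_⟩
  obtain ⟨ηM, hηM0, HM⟩ := Pool.Agent.W505.DC.MT Pool.Agent.W505.DC.MI A0 F f hS ε (ε * (η / 16))
    ⌈1 / ε⌉₊ hε (by linarith) (by positivity)
  obtain ⟨N₁, hN₁⟩ := merw ε w (min ηM 1) hε (by linarith) (lt_min hηM0 one_pos)
  obtain ⟨N₃, hN₃⟩ := exJg ε κ hε (by linarith) (C0 * b) hlev
  obtain ⟨N₄, hN₄⟩ := ev_rpow ε hε z
  refine ⟨max (max N₁ (max N₃ N₄)) 2, le_max_right _ _, ?_⟩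
  intro N hN
  have hN' : max N₁ (max N₃ N₄) ≤ N := (le_max_left _ _).trans hN
  have hNN₁ : N₁ ≤ N := (le_max_left _ _).trans hN'
  have hNN₃ : N₃ ≤ N := ((le_max_left _ _).trans (le_max_right _ _)).trans hN'
  have hNN₄ : N₄ ≤ N := ((le_max_right _ _).trans (le_max_right _ _)).trans hN'
  have hN2 : 2 ≤ N := (le_max_right _ _).trans hN
  have hzN := hN₄ N hNN₄
  refine ⟨hzN, ?_⟩
  intro ι Ω v A hA
  have hNr : (1 : ℝ) < N := by exact_mod_cast (by omega : 1 < N)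
  obtain ⟨J, hJ1, hJ2, hJ3⟩ := hN₃ N hNN₃
  have hMer := hN₁ N hNN₁
  have hgg0 : ∀ p : ℕ, p.Prime → 0 ≤ gq p := fun p hp => gq_nonneg hp
  have hgP : ∀ p ∈ pr N ε w, 0 ≤ gq p := fun p hp => hgg0 p (mem_pr.1 hp).2.1
  have hg1 : ∀ p ∈ P1 N z ε, 0 ≤ gq p ∧ gq p ≤ 1 / ((p : ℝ) - 1) := fun p hp =>
    ⟨hgg0 p (mem_P1.1 hp).2.1, le_rfl⟩
  have hV0 : 0 ≤ ∏ p ∈ P1 N z ε, (1 - gq p) := by
    apply Finset.prod_nonneg
    intro p hp
    have h1 := (hg1 p hp).2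
    have h2 : (2 : ℝ) ≤ p := by exact_mod_cast (mem_P1.1 hp).2.1.two_le
    have h3 : 1 / ((p : ℝ) - 1) ≤ 1 := by
      rw [div_le_one (by linarith)]
      linarith
    linarith
  have hMer1 : Mer (pr N ε w) (tt N) gq ε w ηM := fun a b ha hab hb =>
    (hMer a b ha hab hb).trans (min_le_left _ _)
  have hprod := prod_lew hε (by linarith) hw2 (min_le_right ηM 1) hMer
  set P := pr N ε w with hPd
  set V := ∏ p ∈ P1 N z ε, (1 - gq p) with hVd
  set x := A * V with hxd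
  have hx : 0 ≤ x := mul_nonneg hA hV0
  set Ω1 := Ω.filter (fun i => ∀ p ∈ P1 N z ε, ¬ p ∣ v i) with hΩ1
  set K := ⌈1 / ε⌉₊ with hK
  have hKε : 1 ≤ (K + 2) * ε := by
    have h1 : 1 / ε ≤ K := Nat.le_ceil _
    have h2 : 1 / ε * ε = 1 := by field_simp
    nlinarith
  have HM' := HM P (tt N) gq w (by linarith) hgP (fun p hp => (mem_pr.1 hp).2.2.1)
    hMer1 K le_rfl
  set TT := (P1 N z ε).powerset.filter
    (fun T : Finset ℕ => ∏ p ∈ T, p ≤ (2 ^ 2 ^ J) ^ (C0 * b)) with hTTd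
  have hTTsub : ∀ T ∈ TT, T ⊆ P1 N z ε := fun T hT => mem_powerset.1 (mem_filter.1 hT).1
  have hTTle : ∀ T ∈ TT, ((∏ p ∈ T, p : ℕ) : ℝ) ≤ (N : ℝ) ^ κ := by
    intro T hT
    refine le_trans ?_ hJ2
    exact_mod_cast (mem_filter.1 hT).2
  -- the preliminary sieve
  have hr : ∀ e, e ≠ 0 → (∀ p ∈ e.primeFactors, ε ≤ tt N p) → 0 ≤ gp gq e →
      |rem Ω1 v gq x e| ≤ β * (x * gp gq e) +
        ((J : ℝ) + 2) * ∑ T ∈ TT, Rr Ω v gq A (e * ∏ p ∈ T, p) := by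
    intro e he hep hge
    have h1 := hfund b J z (P1 N z ε) gq hb hz
      (fun p hp => ⟨(mem_P1.1 hp).2.1, (mem_P1.1 hp).1.1, hJ1 p (mem_P1.1 hp).2.2⟩) hg1 ι Ω v A e hA
      hge (by
        intro p hp hpe
        have h2 := hep p (Nat.mem_primeFactors.2 ⟨(mem_P1.1 hp).2.1, hpe, he⟩)
        have h3 := (tt_lt_iff hN2 (mem_P1.1 hp).2.1 ε).2 (mem_P1.1 hp).2.2
        linarith)
    have e1 : rem Ω1 v gq x e = ((Ω1.filter (fun i => e ∣ v i)).card : ℝ) - A * gp gq e * V := by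
      unfold rem
      rw [hxd]
      ring
    have e2 : β * (x * gp gq e) = (1 / 2 : ℝ) ^ b * (A * gp gq e * V) := by
      rw [hβd, hxd]
      ring
    rw [e1, e2]
    exact h1
  have hJ20 : (0 : ℝ) ≤ (J : ℝ) + 2 := by positivity
  have hone : ∀ p ∈ (1 : ℕ).primeFactors, w ≤ tt N p := by simp
  have hEB := err_bound hN2 (show ε ≤ w by linarith) Ω1 v gq hgP x β ((J : ℝ) + 2) TT
    (Rr Ω v gq A) hx hβ0 hr K false τ w 1 one_ne_zero hone (by rw [gp_one]; norm_num) hτ0.le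
    (fun _ => hwτ)
  -- the moduli
  have hm1 : ∑ e ∈ EE P (tt N) τ w, ∑ T ∈ TT, Rr Ω v gq A (1 * e * ∏ p ∈ T, p) ≤
        ∑ m ∈ Lv' z ((N : ℝ) ^ (τ + κ)), Rr Ω v gq A m := by
    have h1 := moduli hN2 (show ε ≤ w by linarith) hzN {1} (fun _ => τ) (fun _ => w) TT
      (D := (N : ℝ) ^ (τ + κ)) (by
        intro d hd
        rw [mem_singleton] at hd
        subst hd
        exact ⟨one_ne_zero, squarefree_one, hone⟩) hTTsub (by
        intro d hd e he T hT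
        rw [mem_singleton] at hd
        subst hd
        rw [one_mul, Real.rpow_add (by linarith)]
        push_cast
        have h2 := EE_le hN2 hτ0.le he
        have h3 := hTTle T hT
        push_cast at h3
        gcongr) (Rr Ω v gq A) (Rr_nonneg Ω v gq A)
    rw [sum_singleton] at h1
    exact h1
  have hSR0 : 0 ≤ ∑ m ∈ Lv' z ((N : ℝ) ^ (τ + κ)), Rr Ω v gq A m :=
    Finset.sum_nonneg fun m _ => Rr_nonneg Ω v gq A m
  have hxβ : x * (β * (2 / ε)) ≤ x * (ε * (η / 8)) := mul_le_mul_of_nonneg_left hβε hx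
  set SR := ∑ m ∈ Lv' z ((N : ℝ) ^ (τ + κ)), Rr Ω v gq A m with hSRd
  have hsum : ∑ i ∈ Ω1, LL P (tt N) (ind (v i)) K false τ w 1 ≤
      ∑ i ∈ Ω1, Iw N ε w (v i) :=
    Finset.sum_le_sum fun i _ => Iw_ge N hN2 ε w K (v i) τ
  refine le_trans ?_ hsum
  -- the main term
  have e1 := LL_main hN2 (ε := ε) (w := w) Ω1 v gq x K false τ w 1
    (fun p hp _ h => (mem_pr.1 hp).2.1.one_lt.ne' (Nat.dvd_one.1 h))
  have e2 := (HM' τ w (by linarith) (by linarith) le_rfl (by linarith)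
    (by linarith)).2 hwτ
  have e3 : ε / w * f (τ / w) = ε * A0 * (Real.log (τ / w - 1) / τ) := by
    rw [hS.f4 _ (by rw [le_div_iff₀ hw0]; exact hwτ) (by rw [div_le_iff₀ hw0]; exact hτw)]
    field_simp
  rw [e3] at e2
  rw [gp_one, one_mul] at hEB
  have hfirst : x * (ε * A0 * (Real.log (τ / w - 1) / τ)) - x * (ε * (η / 16)) -
      x * (ε * (η / 8)) - ((J : ℝ) + 2) * SR ≤
      ∑ i ∈ Ω1, LL P (tt N) (ind (v i)) K false τ w 1 := by
    rw [e1, gp_one, one_mul]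
    have h1 : x * (ε * A0 * (Real.log (τ / w - 1) / τ) - ε * (η / 16)) ≤
        x * MM P (tt N) gq K false τ w := mul_le_mul_of_nonneg_left e2 hx
    have h2 := (abs_le.1 hEB).1
    have h3 : β * (x * ∏ p ∈ P, (1 + gq p)) ≤ x * (β * (2 / ε)) := by
      calc β * (x * ∏ p ∈ P, (1 + gq p)) ≤ β * (x * (2 / ε)) := by gcongr
        _ = _ := by ring
    have h4 : ((J : ℝ) + 2) * ∑ e ∈ EE P (tt N) τ w, ∑ T ∈ TT,
        Rr Ω v gq A (1 * e * ∏ p ∈ T, p) ≤ ((J : ℝ) + 2) * SR :=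
      mul_le_mul_of_nonneg_left hm1 hJ20
    rw [mul_sub] at h1
    linarith only [h1, h2, h3, h4, hxβ]
  exact arith_loww hx hε hη hSR0 (Nat.cast_nonneg J) hJ3 hfirst

/-- the residue classes -/
theorem crt (M : ℕ) (c : ℕ → ℕ) : ∃ a : ℕ, ∀ p : ℕ, p.Prime → p ≤ M → a ≡ c p [MOD p] := by
  obtain ⟨a, ha⟩ := Nat.chineseRemainderOfFinset c id ((Icc 1 M).filter Nat.Prime)
    (fun p hp => (mem_filter.1 hp).2.ne_zero) (by
      intro p hp q hq hpq
      have h1 := (mem_filter.1 (Finset.mem_coe.1 hp)).2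
      have h2 := (mem_filter.1 (Finset.mem_coe.1 hq)).2
      exact (Nat.coprime_primes h1 h2).2 hpq)
  exact ⟨a, fun p hp hpM => ha p (mem_filter.2 ⟨mem_Icc.2 ⟨hp.one_le, hpM⟩, hp⟩)⟩

/-- the product of the primes up to `z` -/
noncomputable def P0 (z : ℕ) : ℕ := ∏ p ∈ (Icc 1 z).filter Nat.Prime, p

theorem P0_pos (z : ℕ) : 0 < P0 z := prod_pos fun p hp => (mem_filter.1 hp).2.pos

theorem dvd_P0 {p z : ℕ} (hp : p.Prime) (hpz : p ≤ z) : p ∣ P0 z :=
  Finset.dvd_prod_of_mem (fun p => p) (mem_filter.2 ⟨mem_Icc.2 ⟨hp.one_le, hpz⟩, hp⟩)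

theorem le_of_dvd_P0 {p z : ℕ} (hp : p.Prime) (h : p ∣ P0 z) : p ≤ z := by
  obtain ⟨q, hq, h2⟩ := (Prime.dvd_finsetProd_iff hp.prime _).1 h
  have h3 := mem_filter.1 hq
  rw [(Nat.prime_dvd_prime_iff_eq hp h3.2).1 h2]
  exact (mem_Icc.1 h3.1).2

/-- the choice of the class -/
theorem site (z y M n : ℕ) (hzM : z ≤ M) (hyM : y ≤ M) (hn : Even n) : ∃ a : ℕ,
    (∀ p : ℕ, p.Prime → p ≤ M → ¬ p ∣ a) ∧
    ∀ h : ℕ, h.Prime → y < h → h ≡ a [MOD P0 z] →
      (∀ p : ℕ, p.Prime → z < p → p ≤ y → ¬ h ≡ a [MOD p]) →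
      ∀ p : ℕ, p.Prime → p ≤ y → ¬ p ∣ n + h := by
  obtain ⟨a, ha⟩ := crt M fun p => if p ≤ z then (if p ∣ n + 1 then 2 else 1) else
    if p ≤ y ∧ ¬ p ∣ n then n * (p - 1) else 1
  refine ⟨a, ?_, ?_⟩
  · intro p hp hpM hpa
    have h1 := ha p hp hpM
    have h2 : p ∣ if p ≤ z then (if p ∣ n + 1 then 2 else 1) else
        if p ≤ y ∧ ¬ p ∣ n then n * (p - 1) else 1 := (h1.dvd_iff dvd_rfl).1 hpa
    have h11 : ¬ p ∣ 1 := fun h => hp.one_lt.ne' (Nat.dvd_one.1 h)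
    split_ifs at h2 with h3 h4 h5
    · have h6 : p = 2 := (Nat.prime_dvd_prime_iff_eq hp Nat.prime_two).1 h2
      rw [h6] at h4
      obtain ⟨k, hk⟩ := hn
      omega
    · exact h11 h2
    · rcases (hp.dvd_mul).1 h2 with h6 | h6
      · exact h5.2 h6
      · have h7 := hp.one_lt
        have h8 := Nat.le_of_dvd (by omega) h6
        omega
    · exact h11 h2
  · intro h hh hyh hha hsift p hp hpy hdv
    have h1 := ha p hp (hpy.trans hyM)
    by_cases hpz : p ≤ z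
    · have h2 : h ≡ a [MOD p] := hha.of_dvd (dvd_P0 hp hpz)
      have h3 := h2.trans h1
      rw [if_pos hpz] at h3
      have h11 : ¬ p ∣ 1 := fun h => hp.one_lt.ne' (Nat.dvd_one.1 h)
      split_ifs at h3 with h4
      · have h5 : p ∣ n + 2 := ((h3.add_left n).dvd_iff dvd_rfl).1 hdv
        have h6 := (Nat.dvd_sub h5 h4)
        have h7 : n + 2 - (n + 1) = 1 := by omega
        rw [h7] at h6
        exact h11 h6
      · exact h4 (((h3.add_left n).dvd_iff dvd_rfl).1 hdv)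
    · by_cases hpn : p ∣ n
      · have h2 : p ∣ h := (Nat.dvd_add_right hpn).1 hdv
        have h3 : p = h := (Nat.prime_dvd_prime_iff_eq hp hh).1 h2
        omega
      · rw [if_neg hpz, if_pos ⟨hpy, hpn⟩] at h1
        refine hsift p hp (by omega) hpy ?_
        refine Nat.ModEq.trans ?_ h1.symm
        have h2 : n + n * (p - 1) = n * p := by
          have := hp.one_lt
          obtain ⟨k, rfl⟩ : ∃ k, p = k + 1 := ⟨p - 1, by omega⟩
          simp only [Nat.add_sub_cancel]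
          ring
        have h3 : n + h ≡ n + n * (p - 1) [MOD p] := by
          rw [h2]
          exact (Nat.modEq_zero_iff_dvd.2 hdv).trans
            (Nat.modEq_zero_iff_dvd.2 (Dvd.intro_left n rfl)).symm
        exact Nat.ModEq.add_left_cancel' n h3

/-- the value which is sifted -/
noncomputable def vv (a M h : ℕ) : ℕ := h + a * (P0 M - 1)

theorem vv_dvd {a M q h : ℕ} (hq : q ∣ P0 M) : q ∣ vv a M h ↔ h ≡ a [MOD q] := by
  have h1 : a + a * (P0 M - 1) = a * P0 M := by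
    have := P0_pos M
    obtain ⟨k, hk⟩ : ∃ k, P0 M = k + 1 := ⟨P0 M - 1, by omega⟩
    rw [hk]
    simp only [Nat.add_sub_cancel]
    ring
  have h2 : a + a * (P0 M - 1) ≡ 0 [MOD q] := by
    rw [h1]
    exact Nat.modEq_zero_iff_dvd.2 (Dvd.dvd.mul_left hq a)
  unfold vv
  rw [← Nat.modEq_zero_iff_dvd]
  constructor
  · intro h3
    exact Nat.ModEq.add_right_cancel' _ (h3.trans h2.symm)
  · intro h3
    exact (h3.add_right _).trans h2

theorem tot_sqf {q : ℕ} (hq : Squarefree q) : Nat.totient q = ∏ p ∈ q.primeFactors, (p - 1) := by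
  have h1 := Nat.totient_mul_prod_primeFactors q
  rw [Nat.prod_primeFactors_of_squarefree hq, mul_comm] at h1
  exact Nat.eq_of_mul_eq_mul_left (Nat.pos_of_ne_zero hq.ne_zero) h1

theorem dvd_P0_sqf {q M : ℕ} (hq : Squarefree q) (hqM : ∀ p ∈ q.primeFactors, p ≤ M) : q ∣ P0 M := by
  rw [← Nat.prod_primeFactors_of_squarefree hq]
  refine Finset.prod_primes_dvd _ (fun p hp => (Nat.prime_of_mem_primeFactors hp).prime) ?_
  intro p hp
  exact dvd_P0 (Nat.prime_of_mem_primeFactors hp) (hqM p hp)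

theorem prod_tel (M : ℕ) (hM : 2 ≤ M) :
    ∏ k ∈ Icc 3 M, (1 - 1 / ((k : ℝ) - 1) ^ 2) = M / (2 * ((M : ℝ) - 1)) := by
  induction M, hM using Nat.le_induction with
  | base => norm_num
  | succ M hM ih =>
    have hMr : (2 : ℝ) ≤ M := by exact_mod_cast hM
    rw [Finset.prod_Icc_succ_top (by omega), ih]
    push_cast
    have h1 : (M : ℝ) - 1 ≠ 0 := by linarith
    have h2 : (M : ℝ) ≠ 0 := by linarith
    have h3 : (M : ℝ) + 1 - 1 = M := by ring
    rw [h3]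
    field_simp
    ring

theorem prod_half (F : Finset ℕ) (hF : ∀ p ∈ F, 3 ≤ p) :
    1 / 2 ≤ ∏ p ∈ F, (1 - 1 / ((p : ℝ) - 1) ^ 2) := by
  have hf : ∀ k : ℕ, 3 ≤ k → 0 ≤ 1 - 1 / ((k : ℝ) - 1) ^ 2 ∧ 1 - 1 / ((k : ℝ) - 1) ^ 2 ≤ 1 := by
    intro k hk
    have h1 : (3 : ℝ) ≤ k := by exact_mod_cast hk
    have h2 : (1 : ℝ) ≤ ((k : ℝ) - 1) ^ 2 := by nlinarith
    have h3 : 1 / ((k : ℝ) - 1) ^ 2 ≤ 1 := by
      rw [div_le_one (by linarith)]
      exact h2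
    have h4 : 0 ≤ 1 / ((k : ℝ) - 1) ^ 2 := by positivity
    constructor <;> linarith
  obtain ⟨M, hM⟩ : ∃ M, M = max 2 (F.sup id) := ⟨_, rfl⟩
  have hM2 : 2 ≤ M := by rw [hM]; exact le_max_left _ _
  have hsub : F ⊆ Icc 3 M := by
    intro p hp
    rw [mem_Icc, hM]
    exact ⟨hF p hp, (Finset.le_sup (f := id) hp).trans (le_max_right _ _)⟩
  have h1 := prod_tel M hM2
  have hMr : (2 : ℝ) ≤ M := by exact_mod_cast hM2
  have h2 : 1 / 2 ≤ ∏ k ∈ Icc 3 M, (1 - 1 / ((k : ℝ) - 1) ^ 2) := by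
    rw [h1, le_div_iff₀ (by linarith)]
    linarith
  refine h2.trans ?_
  rw [← Finset.prod_sdiff hsub]
  apply mul_le_of_le_one_left
  · exact Finset.prod_nonneg fun p hp => (hf p (hF p hp)).1
  · exact Finset.prod_le_one (fun p hp => (hf p (mem_Icc.1 (mem_sdiff.1 hp).1).1).1)
      (fun p hp => (hf p (mem_Icc.1 (mem_sdiff.1 hp).1).1).2)

open Pool.Agent.H442R2.KF (Er piAP piN bv)

/-- the primes of the class -/
noncomputable def Om (U z a : ℕ) : Finset ℕ :=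
  (Icc 3 U).filter (fun h => h.Prime ∧ h ≡ a [MOD P0 z])

theorem rr_eq {U z M a q : ℕ} (hz : 2 ≤ z) (ha : ¬ 2 ∣ a) (hq : Squarefree q)
    (hqz : ∀ p ∈ q.primeFactors, z < p) (hqM : q ≤ M) :
    Rr (Om U z a) (vv a M) gq ((piN U : ℝ) / (Nat.totient (P0 z) : ℝ)) q = |Er U (P0 z * q) a| := by
  have hq0 : q ≠ 0 := hq.ne_zero
  have hcop : Nat.Coprime (P0 z) q := by
    refine Nat.coprime_of_dvd fun p hp h1 h2 => ?_
    have h3 := le_of_dvd_P0 hp h1
    have h4 := hqz p (Nat.mem_primeFactors.2 ⟨hp, h2, hq0⟩)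
    omega
  have hqP : q ∣ P0 M := dvd_P0_sqf hq fun p hp => (Nat.le_of_mem_primeFactors hp).trans hqM
  have e1 : ((Om U z a).filter (fun i => q ∣ vv a M i)).card = piAP U (P0 z * q) a := by
    unfold Om piAP
    rw [filter_filter]
    congr 1
    ext h
    simp only [mem_filter, mem_Icc]
    constructor
    · rintro ⟨⟨h3, hU⟩, ⟨hp, hc⟩, hv⟩
      exact ⟨⟨by omega, hU⟩, hp, (Nat.modEq_and_modEq_iff_modEq_mul hcop).1 ⟨hc, (vv_dvd hqP).1 hv⟩⟩
    · rintro ⟨⟨h1, hU⟩, hp, hc⟩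
      obtain ⟨c1, c2⟩ := (Nat.modEq_and_modEq_iff_modEq_mul hcop).2 hc
      refine ⟨⟨?_, hU⟩, ⟨hp, c1⟩, (vv_dvd hqP).2 c2⟩
      have h2 := hp.two_le
      rcases Nat.lt_or_ge 2 h with h3 | h3
      · exact h3
      · exfalso
        have h4 : h = 2 := by omega
        rw [h4] at c1
        exact ha (((c1.of_dvd (dvd_P0 Nat.prime_two hz)).dvd_iff dvd_rfl).1 dvd_rfl)
  have e2 : gp gq q = 1 / (Nat.totient q : ℝ) := by
    rw [tot_sqf hq, Nat.cast_prod]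
    unfold gp gq
    rw [one_div, ← Finset.prod_inv_distrib]
    refine Finset.prod_congr rfl fun p hp => ?_
    have h1 := (Nat.prime_of_mem_primeFactors hp).one_le
    rw [Nat.cast_sub h1, one_div]
    norm_num
  unfold Rr Er
  rw [e1, e2, Nat.totient_mul hcop]
  congr 2
  push_cast
  rw [div_mul_div_comm, mul_one]

theorem bv_sum {U z M a : ℕ} {D δ E : ℝ} (hz : 2 ≤ z) (hzM : z ≤ M)
    (ha : ∀ p : ℕ, p.Prime → p ≤ M → ¬ p ∣ a) (hD0 : 0 ≤ D) (hDM : D ≤ M) (hDU : (P0 z : ℝ) * D ≤ (U : ℝ) ^ δ)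
    (hbv : ∀ a' : ℕ → ℕ, (∀ d, 1 ≤ d → Nat.Coprime (a' d) d) →
      ∑ d ∈ Icc 1 ⌊(U : ℝ) ^ δ⌋₊, |Er U d (a' d)| ≤ E) :
    ∑ q ∈ Lv' z D, Rr (Om U z a) (vv a M) gq ((piN U : ℝ) / (Nat.totient (P0 z) : ℝ)) q ≤ E := by
  classical
  have h := hbv (fun d => if Nat.Coprime a d then a else 1) (by
    intro d _
    split_ifs with h1
    · exact h1
    · exact Nat.coprime_one_left d)
  have hmem : ∀ q ∈ Lv' z D, (1 ≤ q ∧ q ≤ M) ∧ Squarefree q ∧ (∀ p ∈ q.primeFactors, z < p) ∧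
      (q : ℝ) ≤ D := by
    intro q hq
    unfold Lv' at hq
    rw [mem_filter, mem_Icc] at hq
    have h1 : (q : ℝ) ≤ D := (Nat.cast_le.2 hq.1.2).trans (Nat.floor_le hD0)
    refine ⟨⟨hq.1.1, ?_⟩, hq.2.1, hq.2.2, h1⟩
    exact_mod_cast h1.trans hDM
  have hc : ∀ q ∈ Lv' z D, Nat.Coprime a (P0 z * q) := by
    intro q hq
    refine Nat.coprime_of_dvd fun p hp h1 h2 => ?_
    rcases hp.dvd_mul.1 h2 with h3 | h3
    · exact ha p hp ((le_of_dvd_P0 hp h3).trans hzM) h1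
    · exact ha p hp ((Nat.le_of_dvd (hmem q hq).1.1 h3).trans (hmem q hq).1.2) h1
  have h2M : 2 ≤ M := hz.trans hzM
  have e1 : ∑ q ∈ Lv' z D, Rr (Om U z a) (vv a M) gq ((piN U : ℝ) / (Nat.totient (P0 z) : ℝ)) q =
      ∑ q ∈ Lv' z D, |Er U (P0 z * q) (if Nat.Coprime a (P0 z * q) then a else 1)| := by
    refine sum_congr rfl fun q hq => ?_
    rw [rr_eq hz (ha 2 Nat.prime_two h2M) (hmem q hq).2.1 (hmem q hq).2.2.1 (hmem q hq).1.2,
      if_pos (hc q hq)]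
  have e2 : ∑ q ∈ Lv' z D, |Er U (P0 z * q) (if Nat.Coprime a (P0 z * q) then a else 1)| =
      ∑ d ∈ (Lv' z D).image (fun q => P0 z * q), |Er U d (if Nat.Coprime a d then a else 1)| := by
    rw [Finset.sum_image]
    intro q _ q' _ h1
    exact Nat.eq_of_mul_eq_mul_left (P0_pos z) h1
  rw [e1, e2]
  refine le_trans (Finset.sum_le_sum_of_subset_of_nonneg ?_ fun d _ _ => abs_nonneg _) h
  intro d hd
  obtain ⟨q, hq, rfl⟩ := mem_image.1 hd
  have h1 := hmem q hq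
  rw [mem_Icc]
  refine ⟨Nat.mul_pos (P0_pos z) h1.1.1, Nat.le_floor ?_⟩
  push_cast
  refine le_trans ?_ hDU
  exact mul_le_mul_of_nonneg_left h1.2.2.2 (Nat.cast_nonneg _)

theorem piN_ge : ∃ U0 : ℕ, 3 ≤ U0 ∧ ∀ U : ℕ, U0 ≤ U → (U : ℝ) / (2 * Real.log U) ≤ (piN U : ℝ) := by
  have h := (isLittleO_log_rpow_atTop (r := (1 : ℝ)) one_pos).bound (show (0 : ℝ) < 1 / 32 by norm_num)
  obtain ⟨X, hX⟩ := Filter.eventually_atTop.1 h
  refine ⟨max 3 ⌈X⌉₊, le_max_left _ _, fun U hU => ?_⟩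
  have hU3 : 3 ≤ U := (le_max_left _ _).trans hU
  have hUr : (3 : ℝ) ≤ U := by exact_mod_cast hU3
  have hUX : X ≤ ((U : ℝ) + 1) := by
    have h1 : (⌈X⌉₊ : ℝ) ≤ U := by exact_mod_cast (le_max_right _ _).trans hU
    linarith [Nat.le_ceil X]
  have h1 := hX ((U : ℝ) + 1) hUX
  have hl1 : 0 ≤ Real.log ((U : ℝ) + 1) := Real.log_nonneg (by linarith)
  rw [Real.rpow_one, Real.norm_eq_abs, Real.norm_eq_abs, abs_of_nonneg hl1,
    abs_of_nonneg (by linarith : (0 : ℝ) ≤ (U : ℝ) + 1)] at h1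
  have h2 := Chebyshev.psi_ge U
  have h3 := Chebyshev.psi_le_primeCounting_mul_log U
  have hpi : (piN U : ℝ) = (Nat.primeCounting U : ℝ) := by
    unfold piN Nat.primeCounting Nat.primeCounting'
    rw [Nat.count_eq_card_filter_range]
    congr 2
    ext p
    simp only [mem_filter, mem_Icc, mem_range]
    constructor
    · rintro ⟨⟨-, h4⟩, h5⟩
      exact ⟨by omega, h5⟩
    · rintro ⟨h4, h5⟩
      exact ⟨⟨h5.one_le, by omega⟩, h5⟩
  have hl : 0 < Real.log U := Real.log_pos (by linarith)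
  rw [hpi, div_le_iff₀ (by positivity)]
  have h6 := Real.log_two_gt_d9
  have h7 : (U : ℝ) * (3 / 5) ≤ U * Real.log 2 := mul_le_mul_of_nonneg_left (by linarith) (by linarith)
  have h8 : (U : ℝ) * Real.log 2 - Real.log ((U : ℝ) + 1) ≤ (Nat.primeCounting U : ℝ) * Real.log U :=
    h2.trans h3
  nlinarith

theorem V_ge (z N y : ℕ) (ε : ℝ) (hz : 2 ≤ z) (h : ∀ p ∈ P1 N z ε, p ≤ y) (hzy : z ≤ y) :
    1 / 2 * Pool.Agent.N422.LG.VV y ≤ ∏ p ∈ P1 N z ε, (1 - gq p) := by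
  have h1 := Pool.Agent.N422.LG.LIN2.VV_le z N y ε h hzy
  have hV1 : Pool.Agent.N422.LG.VV z ≤ 1 := by
    unfold Pool.Agent.N422.LG.VV
    refine Finset.prod_le_one ?_ ?_
    · intro p hp
      have h2 : (1 : ℝ) ≤ p := by exact_mod_cast (mem_filter.1 hp).2.one_le
      have h3 : 1 / (p : ℝ) ≤ 1 := by rw [div_le_one (by linarith)]; exact h2
      linarith
    · intro p hp
      have h3 : 0 ≤ 1 / (p : ℝ) := by positivity
      linarith
  have hf : 0 ≤ ∏ p ∈ P1 N z ε, (1 - Pool.Agent.N422.LG.LIN2.gg p) := by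
    refine Finset.prod_nonneg ?_
    intro p hp
    have h2 : (1 : ℝ) ≤ p := by exact_mod_cast (mem_P1.1 hp).2.1.one_le
    have h3 : 1 / (p : ℝ) ≤ 1 := by rw [div_le_one (by linarith)]; exact h2
    unfold Pool.Agent.N422.LG.LIN2.gg
    linarith
  have h2 : Pool.Agent.N422.LG.VV y ≤ ∏ p ∈ P1 N z ε, (1 - Pool.Agent.N422.LG.LIN2.gg p) :=
    h1.trans (mul_le_of_le_one_left hf hV1)
  have h3 := prod_half (P1 N z ε) (fun p hp => by
    have := (mem_P1.1 hp).1.1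
    omega)
  have e1 : ∏ p ∈ P1 N z ε, (1 - gq p) = (∏ p ∈ P1 N z ε, (1 - 1 / ((p : ℝ) - 1) ^ 2)) *
      ∏ p ∈ P1 N z ε, (1 - Pool.Agent.N422.LG.LIN2.gg p) := by
    rw [← Finset.prod_mul_distrib]
    refine Finset.prod_congr rfl fun p hp => ?_
    have h4 : (2 : ℝ) ≤ p := by exact_mod_cast (mem_P1.1 hp).2.1.two_le
    unfold gq Pool.Agent.N422.LG.LIN2.gg
    have h5 : (p : ℝ) - 1 ≠ 0 := by linarith
    have h6 : (p : ℝ) ≠ 0 := by linarith
    field_simp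
    ring
  rw [e1]
  calc 1 / 2 * Pool.Agent.N422.LG.VV y ≤ 1 / 2 * ∏ p ∈ P1 N z ε, (1 - Pool.Agent.N422.LG.LIN2.gg p) :=
        mul_le_mul_of_nonneg_left h2 (by norm_num)
    _ ≤ _ := mul_le_mul_of_nonneg_right h3 hf

theorem t_low4 : S_LOWG 4 := by
  classical
  intro ε hε
  obtain ⟨A0, C0, hA0, hcore⟩ := core
  obtain ⟨CM, hCM, hMERB⟩ := Pool.Agent.N422.LG.t_MERB
  obtain ⟨z, hzd⟩ : ∃ z : ℕ, z = max C0 2 := ⟨_, rfl⟩
  have hzC : C0 ≤ z := by rw [hzd]; exact le_max_left _ _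
  have hz2 : 2 ≤ z := by rw [hzd]; exact le_max_right _ _
  obtain ⟨e, hed⟩ : ∃ e : ℝ, e = min (ε / 4) 1 := ⟨_, rfl⟩
  have he0 : 0 < e := by rw [hed]; exact lt_min (by positivity) one_pos
  have he1 : e ≤ 1 := by rw [hed]; exact min_le_right _ _
  have heε : e ≤ ε / 4 := by rw [hed]; exact min_le_left _ _
  obtain ⟨w, hw⟩ : ∃ w : ℝ, w = 1 / (2 + e) := ⟨_, rfl⟩
  obtain ⟨τ, hτ⟩ : ∃ τ : ℝ, τ = 1 - e / 8 := ⟨_, rfl⟩
  have hw0 : 0 < w := by rw [hw]; positivity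
  have hw2 : w * (2 + e) = 1 := by rw [hw]; field_simp
  have hw3 : 1 / 3 ≤ w := by
    rw [hw]; apply one_div_le_one_div_of_le (by linarith) (by linarith)
  have hτw : τ / w = τ * (2 + e) := by rw [hw]; field_simp
  have hs : 1 < τ / w - 1 := by
    rw [hτw, hτ]
    nlinarith
  have hτ0 : 0 < τ := by rw [hτ]; linarith
  obtain ⟨L, hL⟩ : ∃ L : ℝ, L = Real.log (τ / w - 1) / τ := ⟨_, rfl⟩
  have hL0 : 0 < L := by rw [hL]; exact div_pos (Real.log_pos hs) hτ0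
  obtain ⟨ε₁, hε₁, hε₁w, N0, hN02, hN0⟩ := hcore z hzC w τ (e / 16) (A0 * L / 2)
    (by positivity) (by positivity) (by linarith)
    (by
      have h1 : 2 ≤ τ / w := by linarith
      rwa [le_div_iff₀ hw0] at h1)
    (by
      rw [hτ]
      linarith) (by rw [hτ]; linarith)
  rw [← hL] at hN0
  -- Bombieri-Vinogradov
  obtain ⟨δ, hδ⟩ : ∃ δ : ℝ, δ = (2 + e) / (4 + ε) := ⟨_, rfl⟩
  have hδ2 : δ < 1 / 2 := by
    rw [hδ, div_lt_iff₀ (by linarith)]
    linarith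
  have hδ0 : 0 < δ := by rw [hδ]; positivity
  obtain ⟨CB, hCB, hbv⟩ := bv δ hδ2 4
  obtain ⟨U0, hU03, hpi⟩ := piN_ge
  obtain ⟨φ, hφ⟩ : ∃ φ : ℝ, φ = (Nat.totient (P0 z) : ℝ) := ⟨_, rfl⟩
  have hφ0 : 0 < φ := by
    rw [hφ]
    exact_mod_cast Nat.totient_pos.2 (P0_pos z)
  have hCM0 : 0 < CM := by linarith
  obtain ⟨c1, hc1⟩ : ∃ c1 : ℝ, c1 = ε₁ * (A0 * L / 2) / (4 * φ * CM) := ⟨_, rfl⟩
  have hc10 : 0 < c1 := by rw [hc1]; positivity
  obtain ⟨y1, hy1⟩ := ev_rpow (e / 8) (by positivity) (2 * P0 z)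
  obtain ⟨y2, hy2⟩ := ev_log (16 * CB / c1)
  refine ⟨c1 / 2, by positivity, max (max (max y1 N0) (max 3 z)) (max (max y2 ⌈64 / c1⌉₊) U0), ?_⟩
  intro y hy U hU n hn
  have hya : max (max y1 N0) (max 3 z) ≤ y := (le_max_left _ _).trans hy
  have hyb : max (max y2 ⌈64 / c1⌉₊) U0 ≤ y := (le_max_right _ _).trans hy
  have hyy1 : y1 ≤ y := ((le_max_left _ _).trans (le_max_left _ _)).trans hya
  have hyN0 : N0 ≤ y := ((le_max_right _ _).trans (le_max_left _ _)).trans hya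
  have hy3 : 3 ≤ y := ((le_max_left _ _).trans (le_max_right _ _)).trans hya
  have hyz : z ≤ y := ((le_max_right _ _).trans (le_max_right _ _)).trans hya
  have hyy2 : y2 ≤ y := ((le_max_left _ _).trans (le_max_left _ _)).trans hyb
  have hyc : ⌈64 / c1⌉₊ ≤ y := ((le_max_right _ _).trans (le_max_left _ _)).trans hyb
  have hyU0 : U0 ≤ y := (le_max_right _ _).trans hyb
  have hyr : (3 : ℝ) ≤ y := by exact_mod_cast hy3
  have hyc' : 64 / c1 ≤ y := (Nat.le_ceil _).trans (by exact_mod_cast hyc)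
  have hl2 := hy2 y hyy2
  obtain ⟨Y, hYd⟩ : ∃ Y : ℝ, Y = (y : ℝ) ^ (2 + e) := ⟨_, rfl⟩
  have hyY : (y : ℝ) ≤ Y := by
    rw [hYd]
    calc (y : ℝ) = (y : ℝ) ^ (1 : ℝ) := (Real.rpow_one _).symm
      _ ≤ (y : ℝ) ^ (2 + e) := Real.rpow_le_rpow_of_exponent_le (by linarith) (by linarith)
  have hY0 : 0 < Y := by linarith
  obtain ⟨N, hN⟩ : ∃ N : ℕ, N = ⌊Y⌋₊ + 1 := ⟨_, rfl⟩
  have hYN : Y < N := by
    rw [hN]; push_cast; exact Nat.lt_floor_add_one Y
  have hNY : (N : ℝ) ≤ 2 * Y := by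
    rw [hN]; push_cast
    have := Nat.floor_le hY0.le
    linarith
  have hyN : y ≤ N := by
    have : (y : ℝ) ≤ N := hyY.trans hYN.le
    exact_mod_cast this
  have hNr : (3 : ℝ) < N := by linarith
  have hYw : Y ^ w = y := by
    rw [hYd, ← Real.rpow_mul (by linarith), mul_comm, hw2, Real.rpow_one]
  have hyw : (y : ℝ) < (N : ℝ) ^ w := by
    rw [← hYw]
    exact Real.rpow_lt_rpow hY0.le hYN hw0
  have hN2w : (N : ℝ) ^ ε₁ ≤ y := by
    calc (N : ℝ) ^ ε₁ ≤ (N : ℝ) ^ (w / 2) :=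
          Real.rpow_le_rpow_of_exponent_le (by linarith) hε₁w
      _ ≤ (Y * Y) ^ (w / 2) := by
          apply Real.rpow_le_rpow (by linarith) _ (by linarith)
          nlinarith
      _ = y := by
          rw [← pow_two, ← Real.rpow_natCast, ← Real.rpow_mul hY0.le]
          have : ((2 : ℕ) : ℝ) * (w / 2) = w := by push_cast; ring
          rw [this, hYw]
  -- the size of `U`
  have hyU4 : (y : ℝ) ^ (4 : ℝ) ≤ U :=
    (Real.rpow_le_rpow_of_exponent_le (by linarith) (by linarith)).trans hU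
  obtain ⟨R, hR⟩ : ∃ R : ℝ, R = (U : ℝ) ^ (1 / 4 : ℝ) := ⟨_, rfl⟩
  have hU0r : (0 : ℝ) ≤ U := Nat.cast_nonneg U
  have hRU : R ^ 4 = U := by
    rw [hR, ← Real.rpow_natCast, ← Real.rpow_mul hU0r]
    norm_num
  have hyR : (y : ℝ) ≤ R := by
    rw [hR]
    calc (y : ℝ) = ((y : ℝ) ^ (4 : ℝ)) ^ (1 / 4 : ℝ) := by
          rw [← Real.rpow_mul (by linarith)]
          norm_num
      _ ≤ (U : ℝ) ^ (1 / 4 : ℝ) := Real.rpow_le_rpow (by positivity) hyU4 (by norm_num)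
  have hR3 : 3 ≤ R := hyr.trans hyR
  have hRleU : R ≤ U := by
    rw [← hRU]
    nlinarith [mul_nonneg (sub_nonneg.2 hR3) (sub_nonneg.2 hR3), pow_pos (show 0 < R by linarith) 3,
      mul_pos (show 0 < R by linarith) (show 0 < R by linarith)]
  have hyUr : (y : ℝ) ≤ U := hyR.trans hRleU
  have hyU : y ≤ U := by exact_mod_cast hyUr
  have hU3 : 3 ≤ U := hy3.trans hyU
  have hUpos : (0 : ℝ) < U := by linarith
  have hly : 0 < Real.log y := Real.log_pos (by linarith)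
  have hlU : 0 < Real.log U := Real.log_pos (by linarith)
  have hlyU : Real.log y ≤ Real.log U := Real.log_le_log (by linarith) hyUr
  have hlUR : Real.log U ≤ 4 * R := by
    have h1 := Real.log_le_rpow_div hU0r (show (0 : ℝ) < 1 / 4 by norm_num)
    rw [← hR] at h1
    linarith
  -- the class
  have hzN : z ≤ N := hyz.trans hyN
  obtain ⟨a, ha, hsite⟩ := site z y N n hzN hyN hn
  obtain ⟨hzN', hmain⟩ := hN0 N (hyN0.trans hyN)
  have hA : (0 : ℝ) ≤ (piN U : ℝ) / (Nat.totient (P0 z) : ℝ) := by positivity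
  have h1 := hmain ℕ (Om U z a) (vv a N) ((piN U : ℝ) / (Nat.totient (P0 z) : ℝ)) hA
  -- right hand side
  have hRS : ∑ i ∈ (Om U z a).filter (fun i => ∀ p ∈ P1 N z ε₁, ¬ p ∣ vv a N i),
      Iw N ε₁ w (vv a N i) ≤ ((SA (OP U) y n).card : ℝ) + y := by
    unfold Iw
    rw [Finset.sum_boole]
    have : (((Om U z a).filter (fun i => ∀ p ∈ P1 N z ε₁, ¬ p ∣ vv a N i)).filter
        (fun i => ∀ p ∈ pr N ε₁ w, ¬ p ∣ vv a N i)) ⊆ SA (OP U) y n ∪ Icc 1 y := by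
      intro h hh
      rw [mem_filter, mem_filter] at hh
      obtain ⟨⟨h2, h3⟩, h4⟩ := hh
      unfold Om at h2
      rw [mem_filter, mem_Icc] at h2
      obtain ⟨⟨h5, h6⟩, h7, h8⟩ := h2
      rw [mem_union]
      rcases Nat.lt_or_ge y h with h9 | h9
      · left
        unfold SA OP
        rw [mem_filter, mem_filter, mem_Icc]
        refine ⟨⟨⟨h5, h6⟩, h7⟩, fun p hp => ?_⟩
        rw [mem_filter, mem_Icc] at hp
        refine hsite h h7 h9 h8 ?_ p hp.2 hp.1.2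
        intro p hpp hpz hpy hcon
        have hdv : p ∣ vv a N h := (vv_dvd (dvd_P0 hpp (hpy.trans hyN))).2 hcon
        by_cases hpe : (p : ℝ) < (N : ℝ) ^ ε₁
        · exact h3 p (mem_P1.2 ⟨⟨hpz, hpy.trans hyN⟩, hpp, hpe⟩) hdv
        · push Not at hpe
          refine h4 p (mem_pr.2 ⟨⟨hpp.one_le, hpy.trans hyN⟩, hpp, ?_, ?_⟩) hdv
          · exact (le_tt_iff (hN02.trans (hyN0.trans hyN)) hpp _).2 hpe
          · rw [tt_lt_iff (hN02.trans (hyN0.trans hyN)) hpp]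
            have : (p : ℝ) ≤ y := by exact_mod_cast hpy
            linarith
      · right
        rw [mem_Icc]
        exact ⟨by omega, h9⟩
    have h2 := (Finset.card_le_card this).trans (card_union_le _ _)
    rw [Nat.card_Icc, Nat.add_sub_cancel] at h2
    exact_mod_cast h2
  -- the main term
  have hV := V_ge z N y ε₁ hz2 (fun p hp => by
    have h2 := (mem_P1.1 hp).2.2
    have : (p : ℝ) ≤ y := by linarith
    exact_mod_cast this) hyz
  have hVy := (hMERB y hy3).2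
  have hpiU := hpi U (hyU0.trans hyU)
  have hAV : (U : ℝ) / (Real.log U * Real.log y) * (1 / (4 * φ * CM)) ≤
      (piN U : ℝ) / φ * ∏ p ∈ P1 N z ε₁, (1 - gq p) := by
    have h2 : (U : ℝ) / (2 * Real.log U) / φ ≤ (piN U : ℝ) / φ :=
      div_le_div_of_nonneg_right hpiU hφ0.le
    have h3 : 1 / 2 * (1 / (CM * Real.log y)) ≤ ∏ p ∈ P1 N z ε₁, (1 - gq p) :=
      (mul_le_mul_of_nonneg_left hVy (by norm_num)).trans hV
    calc (U : ℝ) / (Real.log U * Real.log y) * (1 / (4 * φ * CM)) =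
          (U : ℝ) / (2 * Real.log U) / φ * (1 / 2 * (1 / (CM * Real.log y))) := by
          field_simp
          ring
      _ ≤ _ := mul_le_mul h2 h3 (by positivity) (by rw [hφ]; exact hA)
  have hM : c1 * (U / (Real.log U * Real.log y)) ≤
      ε₁ * ((piN U : ℝ) / φ * ∏ p ∈ P1 N z ε₁, (1 - gq p)) * (A0 * L - A0 * L / 2) := by
    have e1 : ε₁ * ((piN U : ℝ) / φ * ∏ p ∈ P1 N z ε₁, (1 - gq p)) * (A0 * L - A0 * L / 2) =
        ε₁ * (A0 * L / 2) * ((piN U : ℝ) / φ * ∏ p ∈ P1 N z ε₁, (1 - gq p)) := by ring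
    have e2 : c1 * (U / (Real.log U * Real.log y)) =
        ε₁ * (A0 * L / 2) * ((U : ℝ) / (Real.log U * Real.log y) * (1 / (4 * φ * CM))) := by
      rw [hc1]; ring
    rw [e1, e2]
    exact mul_le_mul_of_nonneg_left hAV (by positivity)
  -- the error
  obtain ⟨D, hD⟩ : ∃ D : ℝ, D = (N : ℝ) ^ (τ + e / 16) := ⟨_, rfl⟩
  have hD0 : 0 ≤ D := by rw [hD]; exact Real.rpow_nonneg (by linarith) _
  have e1 : τ + e / 16 = 1 - e / 16 := by rw [hτ]; ring
  have hexp0 : 0 ≤ 1 - e / 16 := by linarith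
  have hDN : D ≤ N := by
    rw [hD, e1]
    calc (N : ℝ) ^ (1 - e / 16) ≤ (N : ℝ) ^ (1 : ℝ) :=
          Real.rpow_le_rpow_of_exponent_le (by linarith) (by linarith)
      _ = N := Real.rpow_one _
  have hDle : D ≤ 2 * (Y * (y : ℝ) ^ (-(e / 8))) := by
    calc D ≤ (2 * Y) ^ (1 - e / 16) := by
          rw [hD, e1]
          exact Real.rpow_le_rpow (by linarith) hNY hexp0
      _ = 2 ^ (1 - e / 16) * Y ^ (1 - e / 16) := Real.mul_rpow (by norm_num) hY0.le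
      _ ≤ 2 * (Y * (y : ℝ) ^ (-(e / 8))) := by
          apply mul_le_mul
          · calc (2 : ℝ) ^ (1 - e / 16) ≤ 2 ^ (1 : ℝ) :=
                  Real.rpow_le_rpow_of_exponent_le (by norm_num) (by linarith)
              _ = 2 := Real.rpow_one _
          · rw [hYd, ← Real.rpow_mul (by linarith), ← Real.rpow_add (by linarith)]
            apply Real.rpow_le_rpow_of_exponent_le (by linarith)
            nlinarith
          · exact Real.rpow_nonneg hY0.le _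
          · norm_num
  have hye : 0 < (y : ℝ) ^ (-(e / 8)) := Real.rpow_pos_of_pos (by linarith) _
  have hYU : Y ≤ (U : ℝ) ^ δ := by
    calc Y = ((y : ℝ) ^ (4 + ε)) ^ δ := by
          rw [hYd, ← Real.rpow_mul (by linarith)]
          congr 1
          rw [hδ]
          field_simp
      _ ≤ (U : ℝ) ^ δ := Real.rpow_le_rpow (by positivity) hU hδ0.le
  have hDU : (P0 z : ℝ) * D ≤ (U : ℝ) ^ δ := by
    have h2 := hy1 y hyy1
    have h3 : (y : ℝ) ^ (e / 8) * (y : ℝ) ^ (-(e / 8)) = 1 := by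
      rw [← Real.rpow_add (by linarith)]
      simp
    have hP0 : (0 : ℝ) ≤ P0 z := Nat.cast_nonneg _
    calc (P0 z : ℝ) * D ≤ (P0 z : ℝ) * (2 * (Y * (y : ℝ) ^ (-(e / 8)))) :=
          mul_le_mul_of_nonneg_left hDle hP0
      _ = Y * ((2 * P0 z) * (y : ℝ) ^ (-(e / 8))) := by ring
      _ ≤ Y * ((y : ℝ) ^ (e / 8) * (y : ℝ) ^ (-(e / 8))) := by gcongr
      _ = Y := by rw [h3, mul_one]
      _ ≤ (U : ℝ) ^ δ := hYU
  have hSum := bv_sum (U := U) (z := z) (M := N) (a := a) (D := D) (δ := δ)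
    (E := CB * (U / Real.log U ^ 4)) hz2 hzN ha hD0 hDN hDU (hbv U hU3)
  have hlN : Real.log N ≤ 4 * Real.log y := by
    calc Real.log N ≤ Real.log (2 * Y) := Real.log_le_log (by linarith) hNY
      _ = Real.log 2 + (2 + e) * Real.log y := by
          rw [Real.log_mul (by norm_num) hY0.ne', hYd, Real.log_rpow (by linarith)]
      _ ≤ 4 * Real.log y := by
          have h2 : Real.log 2 ≤ Real.log y := Real.log_le_log (by norm_num) (by linarith)
          nlinarith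
  have hlN0 : 0 ≤ Real.log N := Real.log_nonneg (by linarith)
  have hE1 : Real.log N * ∑ q ∈ Lv' z D, Rr (Om U z a) (vv a N) gq
      ((piN U : ℝ) / (Nat.totient (P0 z) : ℝ)) q ≤ c1 / 4 * (U / (Real.log U * Real.log y)) := by
    calc _ ≤ Real.log N * (CB * (U / Real.log U ^ 4)) := mul_le_mul_of_nonneg_left hSum hlN0
      _ ≤ 4 * Real.log y * (CB * (U / Real.log U ^ 4)) :=
          mul_le_mul_of_nonneg_right hlN (by positivity)
      _ = (4 * CB * Real.log y ^ 2) * (U / (Real.log U ^ 4 * Real.log y)) := by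
          field_simp
      _ ≤ (c1 / 4 * Real.log U ^ 3) * (U / (Real.log U ^ 4 * Real.log y)) := by
          apply mul_le_mul_of_nonneg_right _ (by positivity)
          rw [div_lt_iff₀ hc10] at hl2
          have h2 : Real.log y ^ 3 ≤ Real.log U ^ 3 := pow_le_pow_left₀ hly.le hlyU 3
          have h3 : 4 * CB * Real.log y ^ 2 ≤ c1 / 4 * Real.log y ^ 3 := by
            have h4 : 0 ≤ Real.log y ^ 2 := by positivity
            nlinarith
          have h5 : c1 / 4 * Real.log y ^ 3 ≤ c1 / 4 * Real.log U ^ 3 :=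
            mul_le_mul_of_nonneg_left h2 (by positivity)
          linarith
      _ = c1 / 4 * (U / (Real.log U * Real.log y)) := by
          field_simp
  have hE2 : (y : ℝ) ≤ c1 / 4 * (U / (Real.log U * Real.log y)) := by
    rw [mul_div_assoc', le_div_iff₀ (by positivity)]
    have h2 : Real.log U * Real.log y ≤ (4 * R) * (4 * R) :=
      mul_le_mul hlUR (hlyU.trans hlUR) hly.le (by linarith)
    have h3 : 64 ≤ c1 * R := by
      have h4 : 64 / c1 ≤ R := hyc'.trans hyR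
      rw [div_le_iff₀ hc10] at h4
      linarith
    calc (y : ℝ) * (Real.log U * Real.log y) ≤ R * ((4 * R) * (4 * R)) :=
          mul_le_mul hyR h2 (by positivity) (by linarith)
      _ = 64 * (R ^ 3 / 4) := by ring
      _ ≤ (c1 * R) * (R ^ 3 / 4) := mul_le_mul_of_nonneg_right h3 (by positivity)
      _ = c1 / 4 * R ^ 4 := by ring
      _ = c1 / 4 * U := by rw [hRU]
  have h6 := h1.trans hRS
  rw [← hφ, ← hD] at h6
  rw [← hφ] at hE1
  linarith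

end Pool.Agent.N422.GB.LOW4

namespace Pool.Agent.N422.GB

theorem t_LOW4 : S_LOWG 4 := LOW4.t_low4

end Pool.Agent.N422.GB
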