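import Pool.Agent.N422.GB.ALL0
import Pool.Agent.N422.GB.LOW4

/-! Project GB: assembly. Author: helper422 (part: helper323). -/

set_option autoImplicit false

namespace Pool.Agent.N422.GB

theorem gold_all : S_GOLD 4 := gold_of 4 (by norm_num) t_LOW4

end Pool.Agent.N422.GB
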