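import Pool.Agent.N422.GB.Stm

/-! Project GB (helper422), job GB/GOLD (helper564): reflection. -/

set_option autoImplicit false

open Finset

namespace Pool.Agent.N422.GB

open Pool.Agent.N422.NW Pool.Agent.N422.SL Pool.Agent.N422.WS Pool.Agent.N422.LG Pool.Agent.N422.LR

/-- the reflected point -/
def GOLD_N (Q n : ℕ) : ℕ := Q.factorial - n % Q.factorial

theorem GOLD_add (Q n : ℕ) : n + GOLD_N Q n ≡ 0 [MOD Q.factorial] := by
  have hF : 0 < Q.factorial := Nat.factorial_pos Q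
  have h1 : n % Q.factorial + GOLD_N Q n = Q.factorial := by
    have := (Nat.mod_lt n hF).le
    unfold GOLD_N
    omega
  have h2 : n + GOLD_N Q n ≡ n % Q.factorial + GOLD_N Q n [MOD Q.factorial] :=
    Nat.ModEq.add_right _ (Nat.mod_modEq n _).symm
  rw [h1] at h2
  exact h2.trans (by simp [Nat.ModEq])

theorem GOLD_mod {d n N : ℕ} (hd : 1 ≤ d) (h : n + N ≡ 0 [MOD d]) :
    (d - (n % d) % d) % d = N % d := by
  rw [Nat.mod_mod]
  have hr : n % d < d := Nat.mod_lt n hd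
  have h1 : (d - n % d) + n % d ≡ N + n % d [MOD d] := by
    have e1 : (d - n % d) + n % d = d := by omega
    rw [e1]
    have e2 : N + n % d ≡ N + n [MOD d] := Nat.ModEq.add_left _ (Nat.mod_modEq n d)
    have e3 : N + n ≡ 0 [MOD d] := by rw [add_comm]; exact h
    have e4 : d ≡ 0 [MOD d] := by simp [Nat.ModEq]
    exact e4.trans (e2.trans e3).symm
  exact Nat.ModEq.add_right_cancel' _ h1

theorem GOLD_wt (Q : ℕ) (c : ℕ → ℕ → ℝ) (n N : ℕ) (h : n + N ≡ 0 [MOD Q.factorial]) :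
    wt Q (fun d u => c d ((d - u % d) % d)) n = wt Q c N := by
  unfold wt
  refine Finset.sum_congr rfl fun d hd => ?_
  obtain ⟨h1, h2⟩ := Finset.mem_Icc.1 hd
  have hdv : d ∣ Q.factorial := Nat.dvd_factorial h1 h2
  show c d ((d - (n % d) % d) % d) = _
  rw [GOLD_mod h1 (h.of_dvd hdv)]

theorem GOLD_sum (F : ℕ) (g : ℕ → ℝ) (hg : g F = g 0) :
    ∑ n ∈ range F, g (F - n) = ∑ n ∈ range F, g n := by
  have h1 : ∑ n ∈ range F, g (F - n) = ∑ n ∈ range F, g (n + 1) := by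
    rw [← Finset.sum_range_reflect (fun j => g (j + 1)) F]
    refine Finset.sum_congr rfl fun j hj => ?_
    have := Finset.mem_range.1 hj
    congr 1
    omega
  have h2 := Finset.sum_range_succ' g F
  have h3 := Finset.sum_range_succ g F
  rw [h1]
  linarith

theorem GOLD_mQ (Q : ℕ) (c : ℕ → ℕ → ℝ) :
    mQ Q (wt Q (fun d u => c d ((d - u % d) % d))) = mQ Q (wt Q c) := by
  unfold mQ
  congr 1
  have hF : 0 < Q.factorial := Nat.factorial_pos Q
  rw [← GOLD_sum Q.factorial (wt Q c)]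
  · refine Finset.sum_congr rfl fun n hn => ?_
    have hn' := Finset.mem_range.1 hn
    refine GOLD_wt Q c n _ ?_
    have e : n + (Q.factorial - n) = Q.factorial := by omega
    rw [e]
    simp [Nat.ModEq]
  · unfold wt
    refine Finset.sum_congr rfl fun d hd => ?_
    obtain ⟨h1, h2⟩ := Finset.mem_Icc.1 hd
    have hdv : d ∣ Q.factorial := Nat.dvd_factorial h1 h2
    rw [Nat.mod_eq_zero_of_dvd hdv, Nat.zero_mod]

theorem t_GOLD (e : ℝ) (h : S_FXG e) : S_GOLD e := by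
  intro ε hε
  obtain ⟨Q0, hQ0⟩ := h ε hε
  refine ⟨max Q0 2, fun Q hQ U hU c h1 h2 => ?_⟩
  have hQ1 : Q0 ≤ Q := (le_max_left _ _).trans hQ
  have hQ2 : 2 ≤ Q := (le_max_right _ _).trans hQ
  rw [← GOLD_mQ]
  refine hQ0 Q hQ1 U hU _ ?_ ?_
  · intro n hn
    rw [GOLD_wt Q c n _ (GOLD_add Q n)]
    apply h1
    have h3 : n + GOLD_N Q n ≡ 0 [MOD 2] :=
      (GOLD_add Q n).of_dvd (Nat.dvd_factorial (by norm_num) hQ2)
    have h4 : (n + GOLD_N Q n) % 2 = 0 := h3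
    rw [Nat.odd_iff] at hn ⊢
    omega
  · rintro n ⟨q, hq⟩
    rw [GOLD_wt Q c n _ (GOLD_add Q n)]
    apply h2
    simp only [SA, OP, Finset.mem_filter, Finset.mem_Icc] at hq
    obtain ⟨⟨⟨hq1, hq2⟩, hq3⟩, hq4⟩ := hq
    refine ⟨q, hq3, hq2, fun p hp hpQ hN => ?_⟩
    refine hq4 p ⟨⟨hp.one_lt.le, hpQ⟩, hp⟩ ?_
    have h3 : n + GOLD_N Q n ≡ 0 [MOD p] :=
      (GOLD_add Q n).of_dvd (Nat.dvd_factorial hp.pos hpQ)
    have h4 : n + q ≡ 0 [MOD p] := (Nat.ModEq.add_left n hN.symm).trans h3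
    exact (Nat.modEq_zero_iff_dvd).1 h4

end Pool.Agent.N422.GB
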