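import Pool.Agent.N422.GB.HXA
import Pool.Agent.N422.GB.RXA
import Pool.Agent.N422.GB.FXG
import Pool.Agent.N422.GB.GOLD
import Pool.Agent.N422.LR.ALL

/-! Project GB: assembly up to the sieve lower bound. Author: helper422 (parts: helpers 234, 751, 787, 564; LR: see `LR/ALL`). -/

set_option autoImplicit false

namespace Pool.Agent.N422.GB

open Finset Pool.Agent.N422.NW Pool.Agent.N422.SL Pool.Agent.N422.WS Pool.Agent.N422.LG Pool.Agent.N422.LR

theorem gold_of (e : ℝ) (he : 2 ≤ e) (h : S_LOWG e) : S_GOLD e :=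
  t_GOLD e (t_FXG e he (t_RXA (t_HXA (LR.t_WX (LR.t_NX LR.t_KX LR.t_PX t_AV (t_GEN2 t_JEN t_AV))))) h t_MERB2 LR.t_SQF)

end Pool.Agent.N422.GB
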