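import Pool.Agent.N422.GB.Stm
import Pool.Agent.H373R2.T7.FundC
import Pool.Agent.N422.LG.MERB

/-! GB/LOW0: primes `h ≤ U` for which `n + h` is free of small primes (helper999). -/

set_option autoImplicit false
set_option maxHeartbeats 1000000

open Finset

namespace Pool.Agent.N422.GB

open Pool.Agent.N422.NW Pool.Agent.N422.SL Pool.Agent.N422.WS Pool.Agent.N422.LG Pool.Agent.N422.LR
open Pool.Agent.H373R2.T7

/-- the condition: `p` is odd and divides `n + m` -/
def LOW0_Q (n : ℕ) (p m : ℕ) : Prop := p ∣ n + m ∧ p ≠ 2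

lemma LOW0_per (n : ℕ) : PerA (LOW0_Q n) 1 where
  per := by
    intro p m
    unfold LOW0_Q
    rw [Nat.dvd_iff_mod_eq_zero, Nat.dvd_iff_mod_eq_zero, Nat.add_mod_mod]
  few := by
    classical
    intro p hp
    unfold rhoA
    rw [card_le_one]
    intro a ha b hb
    rw [mem_filter, mem_range] at ha hb
    have h1 : n + a ≡ n + b [MOD p] :=
      ((Nat.modEq_zero_iff_dvd).2 ha.2.2.1).trans ((Nat.modEq_zero_iff_dvd).2 hb.2.2.1).symm
    exact Nat.ModEq.eq_of_lt_of_lt (Nat.ModEq.add_left_cancel' n h1) ha.1 hb.1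

lemma LOW0_two (n : ℕ) : rhoA (LOW0_Q n) 2 = 0 := by
  classical
  have h : ∀ r ∈ range 2, ¬ (¬ 2 ∣ r ∧ LOW0_Q n 2 r) := fun r _ h => h.2.2 rfl
  unfold rhoA
  rw [card_eq_zero, filter_eq_empty_iff]
  exact h

/-- the factors of the main term -/
noncomputable def LOW0_F (n y : ℕ) : ℝ := ∏ p ∈ pz y, (1 - (rhoA (LOW0_Q n) p : ℝ) / (p - 1 : ℝ))

lemma LOW0_prod (n y : ℕ) (hy : 2 ≤ y) : (y : ℝ) / (2 * (y - 1)) * VV y ≤ LOW0_F n y := by
  induction y, hy using Nat.le_induction with
  | base =>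
    have e : (Icc 1 2).filter Nat.Prime = {2} := by decide
    unfold VV LOW0_F pz
    rw [e, prod_singleton, prod_singleton, LOW0_two]
    norm_num
  | succ k hk ih =>
    have hk0 : (2 : ℝ) ≤ k := by exact_mod_cast hk
    have hV0 : 0 ≤ VV k := by
      unfold VV
      refine prod_nonneg fun p hp => ?_
      rw [mem_filter] at hp
      have : (1 : ℝ) ≤ p := by exact_mod_cast hp.2.one_lt.le
      rw [sub_nonneg, div_le_one (by linarith)]
      exact this
    have hV : VV (k + 1) = (if (k + 1).Prime then (1 - 1 / ((k + 1 : ℕ) : ℝ)) else 1) * VV k := by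
      unfold VV
      rw [← Finset.insert_Icc_right_eq_Icc_add_one (by omega), filter_insert]
      split_ifs with h
      · rw [prod_insert]
        intro h2
        rw [mem_filter, mem_Icc] at h2
        omega
      · rw [one_mul]
    have hF : LOW0_F n (k + 1) = (if (k + 1).Prime then
        (1 - (rhoA (LOW0_Q n) (k + 1) : ℝ) / (((k + 1 : ℕ) : ℝ) - 1)) else 1) * LOW0_F n k := by
      unfold LOW0_F pz
      rw [← Finset.insert_Icc_right_eq_Icc_add_one (by omega), filter_insert]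
      split_ifs with h
      · rw [prod_insert]
        intro h2
        rw [mem_filter, mem_Icc] at h2
        omega
      · rw [one_mul]
    rw [hV, hF]
    push_cast
    have hk1 : (0 : ℝ) < k - 1 := by linarith
    split_ifs with h
    · have h1 : (rhoA (LOW0_Q n) (k + 1) : ℝ) ≤ 1 := by exact_mod_cast (LOW0_per n).few (k + 1) h
      have h2 : 1 - 1 / (k : ℝ) ≤ 1 - (rhoA (LOW0_Q n) (k + 1) : ℝ) / ((k : ℝ) + 1 - 1) := by
        rw [add_sub_cancel_right]
        gcongr
      have h3 : (0 : ℝ) ≤ 1 - 1 / (k : ℝ) := by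
        rw [sub_nonneg, div_le_one (by linarith)]
        linarith
      calc ((k : ℝ) + 1) / (2 * ((k : ℝ) + 1 - 1)) * ((1 - 1 / ((k : ℝ) + 1)) * VV k)
          = (1 - 1 / (k : ℝ)) * ((k : ℝ) / (2 * (k - 1)) * VV k) := by
            have : (k : ℝ) ≠ 0 := by linarith
            have h4 : (k : ℝ) - 1 ≠ 0 := hk1.ne'
            have h5 : (k : ℝ) + 1 ≠ 0 := by linarith
            have h6 : (k : ℝ) + 1 - 1 = k := by ring
            rw [h6]
            field_simp
            ring
        _ ≤ (1 - (rhoA (LOW0_Q n) (k + 1) : ℝ) / ((k : ℝ) + 1 - 1)) * LOW0_F n k :=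
            mul_le_mul h2 ih (mul_nonneg (by positivity) hV0) (h3.trans h2)
    · rw [one_mul, one_mul]
      refine le_trans (mul_le_mul_of_nonneg_right ?_ hV0) ih
      rw [add_sub_cancel_right, div_le_div_iff₀ (by linarith) (by linarith)]
      nlinarith

lemma LOW0_half (n y : ℕ) (hy : 2 ≤ y) : 1 / 2 * VV y ≤ LOW0_F n y := by
  have hk0 : (2 : ℝ) ≤ y := by exact_mod_cast hy
  have hV0 : 0 ≤ VV y := by
    unfold VV
    refine prod_nonneg fun p hp => ?_
    rw [mem_filter] at hp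
    have : (1 : ℝ) ≤ p := by exact_mod_cast hp.2.one_lt.le
    rw [sub_nonneg, div_le_one (by linarith)]
    exact this
  refine le_trans (mul_le_mul_of_nonneg_right ?_ hV0) (LOW0_prod n y hy)
  rw [div_le_div_iff₀ (by norm_num) (by linarith)]
  linarith

open Classical in
/-- the upper bound of the weighted sum by the count -/
lemma LOW0_upper : ∃ C : ℝ, 0 ≤ C ∧ ∀ n y U : ℕ, Even n → 2 ≤ U →
    ∑ h ∈ (Icc 1 U).filter (fun h : ℕ => ∀ p ∈ pz y, ¬ LOW0_Q n p h), ArithmeticFunction.vonMangoldt h ≤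
      ((SA (OP U) y n).card : ℝ) * Real.log U + C * √(U : ℝ) + 1 := by
  obtain ⟨C, hC⟩ := Chebyshev.psi_sub_theta_le_mul_sqrt
  have hC0 : 0 ≤ C := by
    have h1 := hC 1
    rw [Real.sqrt_one, mul_one] at h1
    have h2 := Chebyshev.theta_le_psi 1
    linarith
  refine ⟨C, hC0, fun n y U hn hU => ?_⟩
  set G := (Icc 1 U).filter (fun h : ℕ => ∀ p ∈ pz y, ¬ LOW0_Q n p h) with hG
  rw [← sum_filter_add_sum_filter_not G Nat.Prime]
  have h1 : ∑ h ∈ G.filter (fun h => ¬ h.Prime), ArithmeticFunction.vonMangoldt h ≤ C * √(U : ℝ) := by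
    refine le_trans ?_ (hC U)
    rw [Chebyshev.psi_sub_theta_eq_sum_not_prime, Nat.floor_natCast]
    refine sum_le_sum_of_subset_of_nonneg ?_ fun _ _ _ => ArithmeticFunction.vonMangoldt_nonneg
    intro h hh
    rw [mem_filter, hG, mem_filter, mem_Icc] at hh
    rw [mem_filter, mem_Ioc]
    exact ⟨⟨by omega, hh.1.1.2⟩, hh.2⟩
  have h2 : ∑ h ∈ G.filter Nat.Prime, ArithmeticFunction.vonMangoldt h ≤
      ((SA (OP U) y n).card : ℝ) * Real.log U + 1 := by
    have hsub : G.filter Nat.Prime ⊆ insert 2 (SA (OP U) y n) := by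
      intro h hh
      rw [mem_filter, hG, mem_filter, mem_Icc] at hh
      rw [mem_insert]
      by_cases h2 : h = 2
      · exact Or.inl h2
      · right
        have hodd : Odd h := hh.2.odd_of_ne_two h2
        unfold SA OP
        rw [mem_filter, mem_filter, mem_Icc]
        refine ⟨⟨⟨?_, hh.1.1.2⟩, hh.2⟩, fun p hp hd => ?_⟩
        · have := hh.2.two_le
          omega
        · by_cases hp2 : p = 2
          · rw [hp2] at hd
            have h3 : Odd (n + h) := hn.add_odd hodd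
            rw [← Nat.not_even_iff_odd, even_iff_two_dvd] at h3
            exact h3 hd
          · exact hh.1.2 p hp ⟨hd, hp2⟩
    calc ∑ h ∈ G.filter Nat.Prime, ArithmeticFunction.vonMangoldt h
        ≤ ∑ h ∈ insert 2 (SA (OP U) y n), ArithmeticFunction.vonMangoldt h :=
          sum_le_sum_of_subset_of_nonneg hsub fun _ _ _ => ArithmeticFunction.vonMangoldt_nonneg
      _ ≤ ArithmeticFunction.vonMangoldt 2 + ∑ h ∈ SA (OP U) y n, ArithmeticFunction.vonMangoldt h := by
          by_cases h3 : 2 ∈ SA (OP U) y n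
          · rw [insert_eq_of_mem h3]
            have := ArithmeticFunction.vonMangoldt_nonneg (n := 2)
            linarith
          · rw [sum_insert h3]
      _ ≤ 1 + ((SA (OP U) y n).card : ℝ) * Real.log U := by
          gcongr
          · rw [ArithmeticFunction.vonMangoldt_apply_prime Nat.prime_two]
            have := Real.log_two_lt_d9
            push_cast
            linarith
          · rw [← nsmul_eq_mul]
            refine sum_le_card_nsmul _ _ _ fun h hh => ?_
            unfold SA OP at hh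
            rw [mem_filter, mem_filter, mem_Icc] at hh
            rw [ArithmeticFunction.vonMangoldt_apply_prime hh.1.2]
            exact Real.log_le_log (by exact_mod_cast hh.1.2.pos) (by exact_mod_cast hh.1.1.2)
      _ = _ := by ring
  linarith

theorem t_LOW0 : ∃ e : ℝ, 2 ≤ e ∧ S_LOWG e := by
  classical
  obtain ⟨K, hK, hfund⟩ := lam_fund 1 le_rfl (1 / 2) (by norm_num)
  obtain ⟨x0, hx0⟩ := hfund 3
  obtain ⟨C, hC, hmer⟩ := t_MERB
  obtain ⟨C1, hC1, hup⟩ := LOW0_upper
  refine ⟨((max K 2 : ℕ) : ℝ), by exact_mod_cast le_max_right K 2, fun ε hε => ⟨1 / (8 * C), by positivity, ?_⟩⟩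
  -- large parameters
  have hev : ∀ᶠ u : ℝ in Filter.atTop, 32 * C ≤ Real.log u ^ 2 ∧ 1 ≤ Real.log u ∧
      32 * C * (C1 + 1) * Real.log u ≤ √u := by
    have h1 : ∀ᶠ u : ℝ in Filter.atTop, 32 * C + 1 ≤ Real.log u :=
      Real.tendsto_log_atTop.eventually_ge_atTop _
    have h2 : ∀ᶠ u : ℝ in Filter.atTop, ‖Real.log u‖ ≤ 1 / (32 * C * (C1 + 1)) * ‖u ^ (1 / 2 : ℝ)‖ :=
      (isLittleO_log_rpow_atTop (by norm_num : (0 : ℝ) < 1 / 2)).bound (by positivity)
    filter_upwards [h1, h2, Filter.eventually_ge_atTop (1 : ℝ)] with u h1 h2 h3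
    refine ⟨by nlinarith, by linarith, ?_⟩
    rw [Real.norm_eq_abs, Real.norm_eq_abs, abs_of_nonneg (by linarith), abs_of_nonneg (by positivity),
      ← Real.sqrt_eq_rpow] at h2
    calc 32 * C * (C1 + 1) * Real.log u
        ≤ 32 * C * (C1 + 1) * (1 / (32 * C * (C1 + 1)) * √u) := by gcongr
      _ = √u := by field_simp
  obtain ⟨u0, hu0⟩ := Filter.eventually_atTop.1 hev
  refine ⟨max (max x0 3) ⌈u0⌉₊, fun y hy U hU n hn => ?_⟩
  have hyx : x0 ≤ y := le_trans (le_trans (le_max_left _ _) (le_max_left _ _)) hy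
  have hy3 : 3 ≤ y := le_trans (le_trans (le_max_right _ _) (le_max_left _ _)) hy
  have hyu : ⌈u0⌉₊ ≤ y := le_trans (le_max_right _ _) hy
  have hy3r : (3 : ℝ) ≤ y := by exact_mod_cast hy3
  have hpow : ∀ j : ℕ, j ≤ max K 2 → (y : ℝ) ^ j ≤ U := by
    intro j hj
    refine le_trans ?_ hU
    rw [← Real.rpow_natCast]
    refine Real.rpow_le_rpow_of_exponent_le (by linarith) ?_
    have : (j : ℝ) ≤ ((max K 2 : ℕ) : ℝ) := by exact_mod_cast hj
    linarith
  have hKU : y ^ K ≤ U := by exact_mod_cast hpow K (le_max_left _ _)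
  have hyU : (y : ℝ) ≤ U := by
    have := hpow 1 (by omega)
    rwa [pow_one] at this
  have hU3 : (3 : ℝ) ≤ U := hy3r.trans hyU
  have hU2 : 2 ≤ U := by
    have : (3 : ℕ) ≤ U := by exact_mod_cast hU3
    omega
  obtain ⟨a1, a2, a3⟩ := hu0 (U : ℝ) ((Nat.le_ceil u0).trans ((by exact_mod_cast hyu : ((⌈u0⌉₊ : ℕ) : ℝ) ≤ y).trans hyU))
  have hly : 1 ≤ Real.log y := by
    rw [Real.le_log_iff_exp_le (by linarith)]
    have := Real.exp_one_lt_d9
    linarith
  have hlyU : Real.log y ≤ Real.log U := Real.log_le_log (by linarith) hyU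
  have hlow := hx0 U y hyx hKU (LOW0_Q n) (LOW0_per n) U le_rfl
  have hlow1 := (abs_le.1 hlow).1
  have hF : 1 / (2 * C * Real.log y) ≤ LOW0_F n y := by
    refine le_trans ?_ (LOW0_half n y (by omega))
    have := (hmer y hy3).2
    calc 1 / (2 * C * Real.log y) = 1 / 2 * (1 / (C * Real.log y)) := by
          field_simp
      _ ≤ 1 / 2 * VV y := by gcongr
  have hUp := hup n y U hn hU2
  have hS : (U : ℝ) * LOW0_F n y / 2 - U / Real.log U ^ 3 ≤
      ((SA (OP U) y n).card : ℝ) * Real.log U + C1 * √(U : ℝ) + 1 := by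
    refine le_trans ?_ hUp
    have e : (U : ℝ) * ∏ p ∈ pz y, (1 - (rhoA (LOW0_Q n) p : ℝ) / (p - 1 : ℝ)) = U * LOW0_F n y := rfl
    rw [e] at hlow1
    have h9 : ∑ h ∈ (Icc 1 U).filter (fun h : ℕ => ∀ p ∈ pz y, ¬ LOW0_Q n p h),
        ArithmeticFunction.vonMangoldt h = ∑ n_1 ∈ (Icc 1 U).filter (fun n_1 : ℕ => ∀ p ∈ pz y,
          ¬ LOW0_Q n p n_1), ArithmeticFunction.vonMangoldt n_1 := rfl
    linarith
  have hU0 : (0 : ℝ) < U := by linarith
  have hL0 : 0 < Real.log (U : ℝ) := by linarith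
  have hly0 : 0 < Real.log (y : ℝ) := by linarith
  -- the four terms
  have t1 : (U : ℝ) / (4 * C * Real.log y) ≤ U * LOW0_F n y / 2 := by
    calc (U : ℝ) / (4 * C * Real.log y) = U * (1 / (2 * C * Real.log y)) / 2 := by
          field_simp
          ring
      _ ≤ _ := by gcongr
  have base : (U : ℝ) / (32 * C * Real.log U) ≤ U / (32 * C * Real.log y) := by gcongr
  have t2 : (U : ℝ) / Real.log U ^ 3 ≤ U / (32 * C * Real.log y) := by
    refine le_trans ?_ base
    gcongr
    calc 32 * C * Real.log U ≤ Real.log U ^ 2 * Real.log U := by gcongr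
      _ = Real.log U ^ 3 := by ring
  have hsq : √(U : ℝ) * √(U : ℝ) = U := Real.mul_self_sqrt hU0.le
  have hs1 : 1 ≤ √(U : ℝ) := by
    rw [Real.one_le_sqrt]
    linarith
  have t3 : (C1 + 1) * √(U : ℝ) ≤ U / (32 * C * Real.log y) := by
    refine le_trans ?_ base
    rw [le_div_iff₀ (by positivity)]
    calc (C1 + 1) * √(U : ℝ) * (32 * C * Real.log U) = √(U : ℝ) * (32 * C * (C1 + 1) * Real.log U) := by ring
      _ ≤ √(U : ℝ) * √(U : ℝ) := by gcongr
      _ = U := hsq
  have t4 : C1 * √(U : ℝ) + 1 ≤ U / (32 * C * Real.log y) := by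
    refine le_trans ?_ t3
    nlinarith
  have e1 : (U : ℝ) / (4 * C * Real.log y) = 8 * (U / (32 * C * Real.log y)) := by
    field_simp
    ring
  have e2 : 1 / (8 * C) * (U / (Real.log U * Real.log y)) * Real.log U = 4 * (U / (32 * C * Real.log y)) := by
    field_simp
    ring
  have hpos : 0 ≤ (U : ℝ) / (32 * C * Real.log y) := by positivity
  have fin : 1 / (8 * C) * (U / (Real.log U * Real.log y)) * Real.log U ≤
      ((SA (OP U) y n).card : ℝ) * Real.log U := by
    rw [e2]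
    linarith
  exact le_of_mul_le_mul_right fin hL0

end Pool.Agent.N422.GB
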