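import Pool.Agent.N422.GB.Stm2
import Pool.Agent.N422.GB.LOW0
import Pool.Agent.H442R2.KF.Bv
import Pool.Agent.H20R2.EN.FLem

/-! GB/GFU: the fundamental lemma for the primes `h ≤ U` with `n + h` free of small primes, two-sided (helper966). -/

set_option autoImplicit false
set_option maxHeartbeats 4000000

open Finset

namespace Pool.Agent.N422.GB

open Pool.Agent.N422.NW Pool.Agent.N422.SL Pool.Agent.N422.WS Pool.Agent.N422.LG Pool.Agent.N422.LR Pool.Agent.N422.EH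
open Pool.Agent.H373R2.T7 (JJ JJ_lt JJ_le pz mem_pz prod_inj natlog_le)
open Pool.Agent.H442R2.KF (piAP piN Er bv)

/-- the residue class `-n` modulo `d` -/
def GFU_a (n d : ℕ) : ℕ := if Nat.Coprime n d then d - n % d else 1

lemma GFU_a_cop (n d : ℕ) (hd : 1 ≤ d) : Nat.Coprime (GFU_a n d) d := by
  unfold GFU_a
  split_ifs with h
  · rw [Nat.coprime_self_sub_left (Nat.mod_lt n hd).le]
    unfold Nat.Coprime at h ⊢
    rw [← Nat.gcd_rec, Nat.gcd_comm]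
    exact h
  · exact Nat.coprime_one_left d

lemma GFU_a_iff (n d h : ℕ) (hd : 1 ≤ d) (hc : Nat.Coprime n d) : h ≡ GFU_a n d [MOD d] ↔ d ∣ n + h := by
  unfold GFU_a
  rw [if_pos hc]
  have h1 : n + (d - n % d) ≡ 0 [MOD d] := by
    rw [Nat.modEq_zero_iff_dvd]
    refine ⟨n / d + 1, ?_⟩
    have := Nat.div_add_mod n d
    have h2 := (Nat.mod_lt n hd).le
    rw [mul_add, mul_one]
    omega
  rw [← Nat.modEq_zero_iff_dvd]
  constructor
  · intro h2
    exact (Nat.ModEq.add_left n h2).trans h1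
  · intro h2
    exact Nat.ModEq.add_left_cancel' n (h2.trans h1.symm)

/-- the number of the odd primes in a class -/
def GFU_c (U n d : ℕ) : ℕ := ((OP U).filter (fun h => d ∣ n + h)).card

lemma GFU_cnt (U n d : ℕ) (hd : 1 ≤ d) (hc : Nat.Coprime n d) :
    |(GFU_c U n d : ℝ) - (OP U).card / (Nat.totient d : ℝ)| ≤ |Er U d (GFU_a n d)| + 2 := by
  have h1 : GFU_c U n d ≤ piAP U d (GFU_a n d) := by
    unfold GFU_c piAP OP
    apply card_le_card
    intro h hh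
    rw [mem_filter, mem_filter, mem_Icc] at hh
    rw [mem_filter, mem_Icc]
    exact ⟨⟨by omega, hh.1.1.2⟩, hh.1.2, (GFU_a_iff n d h hd hc).2 hh.2⟩
  have h2 : piAP U d (GFU_a n d) ≤ GFU_c U n d + 1 := by
    unfold GFU_c piAP OP
    refine le_trans (card_le_card (t := insert 2 (((Icc 3 U).filter Nat.Prime).filter (fun h => d ∣ n + h))) ?_)
      (card_insert_le _ _)
    intro h hh
    rw [mem_filter, mem_Icc] at hh
    rw [mem_insert, mem_filter, mem_filter, mem_Icc]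
    by_cases h2 : h = 2
    · exact Or.inl h2
    · right
      have := hh.2.1.two_le
      exact ⟨⟨⟨by omega, hh.1.2⟩, hh.2.1⟩, (GFU_a_iff n d h hd hc).1 hh.2.2⟩
  have h3 : (OP U).card ≤ piN U := by
    unfold piN OP
    apply card_le_card
    intro h hh
    rw [mem_filter, mem_Icc] at hh
    rw [mem_filter, mem_Icc]
    exact ⟨⟨by omega, hh.1.2⟩, hh.2⟩
  have h4 : piN U ≤ (OP U).card + 1 := by
    unfold piN OP
    refine le_trans (card_le_card (t := insert 2 ((Icc 3 U).filter Nat.Prime)) ?_) (card_insert_le _ _)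
    intro h hh
    rw [mem_filter, mem_Icc] at hh
    rw [mem_insert, mem_filter, mem_Icc]
    by_cases h2 : h = 2
    · exact Or.inl h2
    · right
      have := hh.2.two_le
      exact ⟨⟨by omega, hh.1.2⟩, hh.2⟩
  have hφ : (1 : ℝ) ≤ Nat.totient d := by exact_mod_cast Nat.totient_pos.2 hd
  unfold Er
  have h5 : (GFU_c U n d : ℝ) - (OP U).card / (Nat.totient d : ℝ) =
      ((piAP U d (GFU_a n d) : ℝ) - piN U / (Nat.totient d : ℝ)) +
        (((GFU_c U n d : ℝ) - piAP U d (GFU_a n d)) + ((piN U : ℝ) - (OP U).card) / (Nat.totient d : ℝ)) := by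
    ring
  rw [h5]
  refine (abs_add_le _ _).trans (add_le_add le_rfl ?_)
  have h6 : |(GFU_c U n d : ℝ) - piAP U d (GFU_a n d)| ≤ 1 := by
    have a1 : (GFU_c U n d : ℝ) ≤ piAP U d (GFU_a n d) := by exact_mod_cast h1
    have a2 : (piAP U d (GFU_a n d) : ℝ) ≤ GFU_c U n d + 1 := by exact_mod_cast h2
    rw [abs_le]
    constructor <;> linarith
  have h7 : |((piN U : ℝ) - (OP U).card) / (Nat.totient d : ℝ)| ≤ 1 := by
    have a1 : ((OP U).card : ℝ) ≤ piN U := by exact_mod_cast h3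
    have a2 : (piN U : ℝ) ≤ (OP U).card + 1 := by exact_mod_cast h4
    rw [abs_of_nonneg (div_nonneg (by linarith) (by linarith)), div_le_one (by linarith)]
    linarith
  refine (abs_add_le _ _).trans ?_
  linarith

lemma GFU_phi (S : Finset ℕ) (hS : ∀ p ∈ S, p.Prime) :
    ((Nat.totient (∏ p ∈ S, p) : ℕ) : ℝ) = ∏ p ∈ S, ((p : ℝ) - 1) := by
  classical
  induction S using Finset.induction_on with
  | empty => simp
  | insert a s ha ih =>
    have h1 := hS a (mem_insert_self a s)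
    have hs : ∀ p ∈ s, p.Prime := fun p hp => hS p (mem_insert_of_mem hp)
    rw [prod_insert ha, prod_insert ha, Nat.totient_mul, Nat.cast_mul, ih hs, Nat.totient_prime h1,
      Nat.cast_sub h1.one_lt.le, Nat.cast_one]
    refine Nat.Coprime.prod_right fun p hp => (Nat.coprime_primes h1 (hs p hp)).2 ?_
    rintro rfl
    exact ha hp

lemma GFU_ind (V : Finset ℕ) (hV : ∀ p ∈ V, p.Prime) (k : ℕ) :
    ∏ p ∈ V, (if p ∣ k then (1 : ℝ) else 0) = if (∏ p ∈ V, p) ∣ k then 1 else 0 := by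
  classical
  by_cases h : (∏ p ∈ V, p) ∣ k
  · rw [if_pos h]
    exact prod_eq_one fun p hp => if_pos ((dvd_prod_of_mem _ hp).trans h)
  · rw [if_neg h]
    have h2 : ∃ p ∈ V, ¬ p ∣ k := by
      by_contra h3
      push Not at h3
      exact h (Finset.prod_primes_dvd k (fun p hp => (hV p hp).prime) h3)
    obtain ⟨p, hp, h3⟩ := h2
    exact prod_eq_zero hp (if_neg h3)

lemma GFU_key (S0 T : Finset ℕ) (hd : Disjoint S0 T) (x : ℕ → ℝ) :
    (∏ p ∈ S0, (1 - x p)) * ∏ p ∈ T, x p = ∑ S ∈ S0.powerset, (-1 : ℝ) ^ S.card * ∏ p ∈ S ∪ T, x p := by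
  classical
  have h1 : ∏ p ∈ S0, (1 - x p) = ∏ p ∈ S0, (- x p + 1) := prod_congr rfl fun p _ => by ring
  rw [h1, Finset.prod_add, sum_mul]
  refine sum_congr rfl fun S hS => ?_
  rw [mem_powerset] at hS
  rw [prod_const_one, mul_one, prod_union (disjoint_of_subset_left hS hd), Finset.prod_neg]
  ring

lemma GFU_ie (U n : ℕ) (S0 T : Finset ℕ) (hS0 : ∀ p ∈ S0, p.Prime) (hT : ∀ p ∈ T, p.Prime)
    (hd : Disjoint S0 T) (g : ℕ → ℝ) (A : ℝ) :
    ∑ m ∈ ((OP U).filter (fun m => ∀ p ∈ S0, ¬ p ∣ n + m)).filter (fun m => ∀ p ∈ T, p ∣ n + m), (1 : ℝ) -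
      A * (∏ p ∈ S0, (1 - g p)) * ∏ p ∈ T, g p =
    ∑ S ∈ S0.powerset, (-1 : ℝ) ^ S.card * ((GFU_c U n (∏ p ∈ S ∪ T, p) : ℝ) - A * ∏ p ∈ S ∪ T, g p) := by
  classical
  have h1 : ∑ m ∈ ((OP U).filter (fun m => ∀ p ∈ S0, ¬ p ∣ n + m)).filter (fun m => ∀ p ∈ T, p ∣ n + m), (1 : ℝ) =
      ∑ m ∈ OP U, (∏ p ∈ S0, (1 - (if p ∣ n + m then (1 : ℝ) else 0))) *
        ∏ p ∈ T, (if p ∣ n + m then (1 : ℝ) else 0) := by
    rw [filter_filter, sum_filter]
    refine sum_congr rfl fun m _ => ?_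
    by_cases a1 : ∀ p ∈ S0, ¬ p ∣ n + m
    · by_cases a2 : ∀ p ∈ T, p ∣ n + m
      · rw [if_pos ⟨a1, a2⟩, prod_eq_one fun p hp => by rw [if_neg (a1 p hp), sub_zero],
          prod_eq_one fun p hp => if_pos (a2 p hp), mul_one]
      · rw [if_neg fun h => a2 h.2]
        push Not at a2
        obtain ⟨p, hp, h3⟩ := a2
        rw [prod_eq_zero (s := T) hp (if_neg h3), mul_zero]
    · rw [if_neg fun h => a1 h.1]
      push Not at a1
      obtain ⟨p, hp, h3⟩ := a1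
      rw [prod_eq_zero (s := S0) hp (by rw [if_pos h3, sub_self]), zero_mul]
  rw [h1]
  simp_rw [GFU_key S0 T hd]
  rw [sum_comm, mul_assoc, GFU_key S0 T hd, mul_sum, ← sum_sub_distrib]
  refine sum_congr rfl fun S hS => ?_
  rw [mem_powerset] at hS
  have hV : ∀ p ∈ S ∪ T, p.Prime := by
    intro p hp
    rcases mem_union.1 hp with h | h
    · exact hS0 p (hS h)
    · exact hT p h
  rw [← mul_sum]
  have h2 : ∑ m ∈ OP U, ∏ p ∈ S ∪ T, (if p ∣ n + m then (1 : ℝ) else 0) = (GFU_c U n (∏ p ∈ S ∪ T, p) : ℝ) := by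
    unfold GFU_c
    rw [card_filter]
    push_cast
    exact sum_congr rfl fun m _ => GFU_ind _ hV (n + m)
  rw [h2]
  ring

/-- the primes of the main term -/
def GFU_P (y n : ℕ) : Finset ℕ := ((Icc 3 y).filter Nat.Prime).filter (fun p => ¬ p ∣ n)

theorem GFU_fl : ∃ C0 : ℕ, 1 ≤ C0 ∧ ∀ b : ℕ, C0 ≤ b → ∀ y U n : ℕ,
    |(((OP U).filter (fun h => ∀ p ∈ GFU_P y n, ¬ p ∣ n + h)).card : ℝ) - (OP U).card * GS y n| ≤
      (1 / 2 : ℝ) ^ b * ((OP U).card * GS y n) + ((JJ y : ℝ) + 2) *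
        ∑ d ∈ Icc 1 ((∏ p ∈ pz C0, p) * (2 ^ 2 ^ JJ y) ^ (C0 * b)), (|Er U d (GFU_a n d)| + 2) := by
  classical
  obtain ⟨C0, hC0, hFL⟩ := Pool.Agent.H20R2.fLem 1
  refine ⟨C0, hC0, fun b hb y U n => ?_⟩
  obtain ⟨S0, hS0⟩ : ∃ S0, S0 = (GFU_P y n).filter (fun p => p ≤ C0) := ⟨_, rfl⟩
  obtain ⟨P, hP⟩ : ∃ P, P = (GFU_P y n).filter (fun p => ¬ p ≤ C0) := ⟨_, rfl⟩
  obtain ⟨D, hD⟩ : ∃ D : ℕ, D = (2 ^ 2 ^ JJ y) ^ (C0 * b) := ⟨_, rfl⟩
  obtain ⟨K0, hK0⟩ : ∃ K0 : ℕ, K0 = ∏ p ∈ pz C0, p := ⟨_, rfl⟩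
  rw [← hD, ← hK0]
  have hPA : ∀ p ∈ GFU_P y n, p.Prime ∧ 3 ≤ p ∧ p ≤ y ∧ ¬ p ∣ n := by
    intro p hp
    unfold GFU_P at hp
    rw [mem_filter, mem_filter, mem_Icc] at hp
    exact ⟨hp.1.2, hp.1.1.1, hp.1.1.2, hp.2⟩
  have hS0P : ∀ p ∈ S0, p.Prime ∧ 3 ≤ p ∧ p ≤ y ∧ ¬ p ∣ n := fun p hp => by
    rw [hS0] at hp
    exact hPA p (mem_filter.1 hp).1
  have hPP : ∀ p ∈ P, p.Prime ∧ 3 ≤ p ∧ p ≤ y ∧ ¬ p ∣ n := fun p hp => by
    rw [hP] at hp
    exact hPA p (mem_filter.1 hp).1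
  have hS0C : ∀ p ∈ S0, p ≤ C0 := fun p hp => by
    rw [hS0] at hp
    exact (mem_filter.1 hp).2
  have hPC : ∀ p ∈ P, C0 < p := fun p hp => by
    rw [hP] at hp
    exact not_le.1 (mem_filter.1 hp).2
  have hdis : Disjoint S0 P := by
    rw [disjoint_left]
    intro p h1 h2
    have := hS0C p h1
    have := hPC p h2
    omega
  have hun : S0 ∪ P = GFU_P y n := by
    ext p
    rw [mem_union, hS0, hP, mem_filter, mem_filter]
    tauto
  have hg01 : ∀ p : ℕ, 3 ≤ p → 0 ≤ 1 / ((p : ℝ) - 1) ∧ 1 / ((p : ℝ) - 1) ≤ 1 := by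
    intro p hp
    have h3 : (3 : ℝ) ≤ p := by exact_mod_cast hp
    exact ⟨by apply div_nonneg <;> linarith, by rw [div_le_one (by linarith)]; linarith⟩
  have hF0 : ∀ d : ℕ, 0 ≤ |Er U d (GFU_a n d)| + 2 := fun d => by positivity
  have hcop : ∀ V : Finset ℕ, (∀ p ∈ V, p.Prime ∧ ¬ p ∣ n) → 1 ≤ ∏ p ∈ V, p ∧ Nat.Coprime n (∏ p ∈ V, p) := by
    intro V hV
    exact ⟨Nat.pos_of_ne_zero (prod_ne_zero_iff.2 fun p hp => (hV p hp).1.ne_zero),
      Nat.Coprime.prod_right fun p hp => (((hV p hp).1.coprime_iff_not_dvd).2 (hV p hp).2).symm⟩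
  have key := hFL b (JJ y) C0 P (fun p => 1 / ((p : ℝ) - 1)) hb le_rfl
    (fun p hp => ⟨(hPP p hp).1, hPC p hp, (hPP p hp).2.2.1.trans (JJ_lt y).le⟩)
    (fun p hp => ⟨(hg01 p (hPP p hp).2.1).1, by rw [Nat.cast_one]⟩)
    ((OP U).filter (fun m => ∀ p ∈ S0, ¬ p ∣ n + m)) (fun _ => (1 : ℝ)) (fun p m => p ∣ n + m)
    ((OP U).card * ∏ p ∈ S0, (1 - 1 / ((p : ℝ) - 1)))
    (fun T => ∑ S ∈ S0.powerset, (|Er U (∏ p ∈ S ∪ T, p) (GFU_a n (∏ p ∈ S ∪ T, p))| + 2))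
    (fun _ _ => zero_le_one)
    (mul_nonneg (Nat.cast_nonneg _) (prod_nonneg fun p hp => sub_nonneg.2 (hg01 p (hS0P p hp).2.1).2))
    (by
      intro T hT _
      have hie := GFU_ie U n S0 T (fun p hp => (hS0P p hp).1) (fun p hp => (hPP p (hT hp)).1)
        (disjoint_of_subset_right hT hdis) (fun p => 1 / ((p : ℝ) - 1)) ((OP U).card : ℝ)
      suffices hs : |∑ S ∈ S0.powerset, (-1 : ℝ) ^ S.card * ((GFU_c U n (∏ p ∈ S ∪ T, p) : ℝ) -
          (OP U).card * ∏ p ∈ S ∪ T, (1 / ((p : ℝ) - 1)))| ≤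
          ∑ S ∈ S0.powerset, (|Er U (∏ p ∈ S ∪ T, p) (GFU_a n (∏ p ∈ S ∪ T, p))| + 2) by
        rw [← hie] at hs
        convert hs
      refine (abs_sum_le_sum_abs _ _).trans (sum_le_sum fun S hS => ?_)
      rw [mem_powerset] at hS
      rw [abs_mul, abs_pow, abs_neg, abs_one, one_pow, one_mul]
      have hV : ∀ p ∈ S ∪ T, p.Prime ∧ ¬ p ∣ n := by
        intro p hp
        rcases mem_union.1 hp with h | h
        · exact ⟨(hS0P p (hS h)).1, (hS0P p (hS h)).2.2.2⟩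
        · exact ⟨(hPP p (hT h)).1, (hPP p (hT h)).2.2.2⟩
      obtain ⟨c1, c2⟩ := hcop _ hV
      have h1 := GFU_cnt U n _ c1 c2
      rw [GFU_phi _ fun p hp => (hV p hp).1] at h1
      have h2 : ((OP U).card : ℝ) * ∏ p ∈ S ∪ T, (1 / ((p : ℝ) - 1)) =
          (OP U).card / ∏ p ∈ S ∪ T, ((p : ℝ) - 1) := by
        rw [prod_div_distrib, prod_const_one]
        ring
      rw [h2]
      exact h1)
  have f1 : ∑ m ∈ ((OP U).filter (fun m => ∀ p ∈ S0, ¬ p ∣ n + m)).filter (fun m => ∀ p ∈ P, ¬ p ∣ n + m), (1 : ℝ) =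
      (((OP U).filter (fun h => ∀ p ∈ GFU_P y n, ¬ p ∣ n + h)).card : ℝ) := by
    rw [sum_const, nsmul_eq_mul, mul_one, filter_filter]
    congr 2
    apply filter_congr
    intro m _
    rw [← hun]
    constructor
    · rintro ⟨h1, h2⟩ p hp
      rcases mem_union.1 hp with h | h
      · exact h1 p h
      · exact h2 p h
    · intro h
      exact ⟨fun p hp => h p (mem_union_left _ hp), fun p hp => h p (mem_union_right _ hp)⟩
  have f2 : ((OP U).card : ℝ) * (∏ p ∈ S0, (1 - 1 / ((p : ℝ) - 1))) * ∏ p ∈ P, (1 - 1 / ((p : ℝ) - 1)) =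
      (OP U).card * GS y n := by
    have e : GS y n = ∏ p ∈ GFU_P y n, (1 - 1 / ((p : ℝ) - 1)) := rfl
    rw [e, ← hun, prod_union hdis, mul_assoc]
  have key2 : |(((OP U).filter (fun h => ∀ p ∈ GFU_P y n, ¬ p ∣ n + h)).card : ℝ) - (OP U).card * GS y n| ≤
      (1 / 2 : ℝ) ^ b * ((OP U).card * GS y n) + ((JJ y : ℝ) + 2) *
        ∑ T ∈ P.powerset.filter (fun T : Finset ℕ => ∏ p ∈ T, p ≤ D),
          ∑ S ∈ S0.powerset, (|Er U (∏ p ∈ S ∪ T, p) (GFU_a n (∏ p ∈ S ∪ T, p))| + 2) := by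
    rw [← f1, ← f2, hD]
    convert key
  refine key2.trans (add_le_add le_rfl (mul_le_mul_of_nonneg_left ?_ (by positivity)))
  have hset : ∀ q ∈ (P.powerset.filter (fun T : Finset ℕ => ∏ p ∈ T, p ≤ D)) ×ˢ S0.powerset,
      q.1 ⊆ P ∧ ∏ p ∈ q.1, p ≤ D ∧ q.2 ⊆ S0 := by
    intro q hq
    rw [mem_product, mem_filter, mem_powerset, mem_powerset] at hq
    exact ⟨hq.1.1, hq.1.2, hq.2⟩
  have hprm : ∀ q ∈ (P.powerset.filter (fun T : Finset ℕ => ∏ p ∈ T, p ≤ D)) ×ˢ S0.powerset,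
      ∀ p ∈ q.2 ∪ q.1, p.Prime := by
    intro q hq p hp
    obtain ⟨h1, _, h3⟩ := hset q hq
    rcases mem_union.1 hp with h | h
    · exact (hS0P p (h3 h)).1
    · exact (hPP p (h1 h)).1
  have hinj : Set.InjOn (fun q : Finset ℕ × Finset ℕ => ∏ p ∈ q.2 ∪ q.1, p)
      ((P.powerset.filter (fun T : Finset ℕ => ∏ p ∈ T, p ≤ D)) ×ˢ S0.powerset : Finset (Finset ℕ × Finset ℕ)) := by
    intro q hq q' hq' h
    rw [mem_coe] at hq hq'
    have h0 := prod_inj (q.2 ∪ q.1) (q'.2 ∪ q'.1) (hprm q hq) (hprm q' hq') h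
    obtain ⟨h1, _, h3⟩ := hset q hq
    obtain ⟨h1', _, h3'⟩ := hset q' hq'
    have e1 : ∀ p, p ∈ q.2 ∪ q.1 ↔ p ∈ q'.2 ∪ q'.1 := fun p => by rw [h0]
    have n1 : ∀ p, p ∈ S0 → p ∈ P → False := fun p a1 a2 => (disjoint_left.1 hdis) a1 a2
    apply Prod.ext
    · ext p
      have := e1 p
      rw [mem_union, mem_union] at this
      constructor
      · intro hp
        rcases this.1 (Or.inr hp) with h | h
        · exact (n1 p (h3' h) (h1 hp)).elim
        · exact h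
      · intro hp
        rcases this.2 (Or.inr hp) with h | h
        · exact (n1 p (h3 h) (h1' hp)).elim
        · exact h
    · ext p
      have := e1 p
      rw [mem_union, mem_union] at this
      constructor
      · intro hp
        rcases this.1 (Or.inl hp) with h | h
        · exact h
        · exact (n1 p (h3 hp) (h1' h)).elim
      · intro hp
        rcases this.2 (Or.inl hp) with h | h
        · exact h
        · exact (n1 p (h3' hp) (h1 h)).elim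
  have e1 : ∑ T ∈ P.powerset.filter (fun T : Finset ℕ => ∏ p ∈ T, p ≤ D),
      ∑ S ∈ S0.powerset, (|Er U (∏ p ∈ S ∪ T, p) (GFU_a n (∏ p ∈ S ∪ T, p))| + 2) =
      ∑ q ∈ (P.powerset.filter (fun T : Finset ℕ => ∏ p ∈ T, p ≤ D)) ×ˢ S0.powerset,
        (|Er U (∏ p ∈ q.2 ∪ q.1, p) (GFU_a n (∏ p ∈ q.2 ∪ q.1, p))| + 2) := by
    rw [sum_product]
  have e2 : ∑ q ∈ (P.powerset.filter (fun T : Finset ℕ => ∏ p ∈ T, p ≤ D)) ×ˢ S0.powerset,
        (|Er U (∏ p ∈ q.2 ∪ q.1, p) (GFU_a n (∏ p ∈ q.2 ∪ q.1, p))| + 2) =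
      ∑ d ∈ ((P.powerset.filter (fun T : Finset ℕ => ∏ p ∈ T, p ≤ D)) ×ˢ S0.powerset).image
        (fun q : Finset ℕ × Finset ℕ => ∏ p ∈ q.2 ∪ q.1, p), (|Er U d (GFU_a n d)| + 2) := by
    rw [sum_image hinj]
  refine (le_of_eq (e1.trans e2)).trans (sum_le_sum_of_subset_of_nonneg ?_ fun d _ _ => hF0 d)
  intro d hd
  rw [mem_image] at hd
  obtain ⟨q, hq, rfl⟩ := hd
  obtain ⟨h1, h2, h3⟩ := hset q hq
  rw [mem_Icc]
  refine ⟨Nat.pos_of_ne_zero (prod_ne_zero_iff.2 fun p hp => (hprm q hq p hp).ne_zero), ?_⟩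
  have hdq : Disjoint q.2 q.1 := disjoint_of_subset_left h3 (disjoint_of_subset_right h1 hdis)
  show ∏ p ∈ q.2 ∪ q.1, p ≤ K0 * D
  rw [prod_union hdq]
  refine Nat.mul_le_mul ?_ h2
  rw [hK0]
  refine Finset.prod_le_prod_of_subset_of_one_le' ?_ ?_
  · intro p hp
    rw [mem_pz]
    exact ⟨hS0C p (h3 hp), (hS0P p (h3 hp)).1⟩
  · intro p hp _
    exact (mem_pz.1 hp).2.one_lt.le

lemma GFU_num (CB c1 : ℝ) (hCB : 0 < CB) (hc1 : 0 < c1) : ∀ᶠ u : ℝ in Filter.atTop,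
    5 * Real.log u * (CB * (u / Real.log u ^ 4) + 2 * u ^ (1 / 4 : ℝ)) + u ^ (1 / 4 : ℝ) ≤
      c1 * (u / Real.log u ^ 2) := by
  have h1 : ∀ᶠ u : ℝ in Filter.atTop, 10 * CB / c1 + 1 ≤ Real.log u := Real.tendsto_log_atTop.eventually_ge_atTop _
  have h2 : ∀ᶠ u : ℝ in Filter.atTop, ‖Real.log u ^ (3 : ℝ)‖ ≤ c1 / 22 * ‖u ^ (3 / 4 : ℝ)‖ :=
    (isLittleO_log_rpow_rpow_atTop (3 : ℝ) (by norm_num : (0 : ℝ) < 3 / 4)).bound (by positivity)
  filter_upwards [h1, h2, Filter.eventually_ge_atTop (1 : ℝ)] with u h1 h2 h3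
  have hu0 : 0 < u := by linarith
  have hq : 0 < 10 * CB / c1 := by positivity
  have hl1 : 1 ≤ Real.log u := by linarith
  have hl0 : 0 < Real.log u := by linarith
  have h4 : Real.log u ^ 3 ≤ c1 / 22 * u ^ (3 / 4 : ℝ) := by
    rw [Real.norm_eq_abs, Real.norm_eq_abs, abs_of_nonneg (by positivity), abs_of_nonneg (by positivity)] at h2
    have : Real.log u ^ (3 : ℝ) = Real.log u ^ 3 := by
      rw [← Real.rpow_natCast]
      norm_num
    rwa [this] at h2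
  have a1 : 5 * Real.log u * (CB * (u / Real.log u ^ 4)) ≤ c1 / 2 * (u / Real.log u ^ 2) := by
    have e : 5 * Real.log u * (CB * (u / Real.log u ^ 4)) = (5 * CB / Real.log u) * (u / Real.log u ^ 2) := by
      field_simp
    rw [e]
    refine mul_le_mul_of_nonneg_right ?_ (by positivity)
    rw [div_le_iff₀ hl0]
    have : 10 * CB / c1 ≤ Real.log u := by linarith
    rw [div_le_iff₀ hc1] at this
    linarith
  have a2 : 11 * Real.log u * u ^ (1 / 4 : ℝ) ≤ c1 / 2 * (u / Real.log u ^ 2) := by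
    have e1 : u = u ^ (1 / 4 : ℝ) * u ^ (3 / 4 : ℝ) := by
      rw [← Real.rpow_add hu0]
      norm_num
    have e2 : c1 / 2 * (u / Real.log u ^ 2) = (c1 / 2 * u) / Real.log u ^ 2 := by ring
    rw [e2, le_div_iff₀ (by positivity)]
    calc 11 * Real.log u * u ^ (1 / 4 : ℝ) * Real.log u ^ 2 = 11 * u ^ (1 / 4 : ℝ) * Real.log u ^ 3 := by ring
      _ ≤ 11 * u ^ (1 / 4 : ℝ) * (c1 / 22 * u ^ (3 / 4 : ℝ)) := by gcongr
      _ = c1 / 2 * (u ^ (1 / 4 : ℝ) * u ^ (3 / 4 : ℝ)) := by ring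
      _ = c1 / 2 * u := by rw [← e1]
  have a3 : u ^ (1 / 4 : ℝ) ≤ Real.log u * u ^ (1 / 4 : ℝ) := le_mul_of_one_le_left (by positivity) hl1
  calc 5 * Real.log u * (CB * (u / Real.log u ^ 4) + 2 * u ^ (1 / 4 : ℝ)) + u ^ (1 / 4 : ℝ)
      = 5 * Real.log u * (CB * (u / Real.log u ^ 4)) + (10 * (Real.log u * u ^ (1 / 4 : ℝ)) + u ^ (1 / 4 : ℝ)) := by ring
    _ ≤ c1 / 2 * (u / Real.log u ^ 2) + 11 * Real.log u * u ^ (1 / 4 : ℝ) := by
        refine add_le_add a1 ?_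
        nlinarith
    _ ≤ c1 / 2 * (u / Real.log u ^ 2) + c1 / 2 * (u / Real.log u ^ 2) := add_le_add le_rfl a2
    _ = _ := by ring

lemma GFU_root (x U : ℕ) (h : x ^ 4 ≤ U) : (x : ℝ) ≤ (U : ℝ) ^ (1 / 4 : ℝ) := by
  have hx : (0 : ℝ) ≤ x := Nat.cast_nonneg _
  calc (x : ℝ) = ((x : ℝ) ^ (4 : ℕ)) ^ (1 / 4 : ℝ) := by
        rw [← Real.rpow_natCast, ← Real.rpow_mul hx]
        norm_num
    _ ≤ (U : ℝ) ^ (1 / 4 : ℝ) := Real.rpow_le_rpow (by positivity) (by exact_mod_cast h) (by norm_num)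

lemma GFU_SA (y U n : ℕ) (hn : Even n) :
    (SA (OP U) y n).card ≤ ((OP U).filter (fun h => ∀ p ∈ GFU_P y n, ¬ p ∣ n + h)).card ∧
    ((OP U).filter (fun h => ∀ p ∈ GFU_P y n, ¬ p ∣ n + h)).card ≤ (SA (OP U) y n).card + y := by
  classical
  constructor
  · apply card_le_card
    intro h hh
    unfold SA at hh
    rw [mem_filter] at hh ⊢
    refine ⟨hh.1, fun p hp => hh.2 p ?_⟩
    unfold GFU_P at hp
    rw [mem_filter, mem_filter, mem_Icc] at hp
    rw [mem_filter, mem_Icc]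
    exact ⟨⟨by omega, hp.1.1.2⟩, hp.1.2⟩
  · calc _ ≤ (SA (OP U) y n ∪ Icc 1 y).card := by
          apply card_le_card
          intro h hh
          rw [mem_filter] at hh
          rw [mem_union]
          by_cases hS : h ∈ SA (OP U) y n
          · exact Or.inl hS
          · right
            unfold SA at hS
            rw [mem_filter] at hS
            push Not at hS
            obtain ⟨p, hp, hd⟩ := hS hh.1
            rw [mem_filter, mem_Icc] at hp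
            have hho := hh.1
            unfold OP at hho
            rw [mem_filter, mem_Icc] at hho
            have hodd : Odd h := hho.2.odd_of_ne_two (by omega)
            have hp2 : p ≠ 2 := by
              rintro rfl
              have h3 : Odd (n + h) := hn.add_odd hodd
              rw [← Nat.not_even_iff_odd, even_iff_two_dvd] at h3
              exact h3 hd
            have hp3 : 3 ≤ p := by
              have := hp.2.two_le
              omega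
            have hpn : p ∣ n := by
              by_contra hpn
              refine hh.2 p ?_ hd
              unfold GFU_P
              rw [mem_filter, mem_filter, mem_Icc]
              exact ⟨⟨⟨hp3, hp.1.2⟩, hp.2⟩, hpn⟩
            have hph : p ∣ h := (Nat.dvd_add_right hpn).1 hd
            have e : p = h := (Nat.prime_dvd_prime_iff_eq hp.2 hho.2).1 hph
            rw [mem_Icc, ← e]
            exact hp.1
      _ ≤ (SA (OP U) y n).card + (Icc 1 y).card := card_union_le _ _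
      _ = _ := by rw [Nat.card_Icc, Nat.add_sub_cancel]

theorem t_GFU : S_GFU := by
  obtain ⟨C0, hC0, hfl⟩ := GFU_fl
  obtain ⟨e, he, hlow⟩ := t_LOW0
  obtain ⟨κ, hκ, y1, hy1⟩ := hlow 1 one_pos
  obtain ⟨CB, hCB, hbv⟩ := bv (1 / 4) (by norm_num) 4
  obtain ⟨K0, hK0⟩ : ∃ K0 : ℕ, K0 = ∏ p ∈ pz C0, p := ⟨_, rfl⟩
  rw [← hK0] at hfl
  obtain ⟨CC, hCC⟩ : ∃ CC : ℕ, CC = 8 * (C0 * (C0 + 1)) + 4 + ⌈e⌉₊ + 1 := ⟨_, rfl⟩
  refine ⟨CC, by omega, fun b => ?_⟩
  obtain ⟨b', hb'⟩ : ∃ b' : ℕ, b' = C0 + b + 1 := ⟨_, rfl⟩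
  obtain ⟨u0, hu0⟩ := Filter.eventually_atTop.1 (GFU_num CB ((1 / 2 : ℝ) ^ (b + 3) * κ) hCB (by positivity))
  refine ⟨max (max y1 K0) (max 3 ⌈u0⌉₊), fun y hy U hU n hn => ?_⟩
  have hy1' : y1 ≤ y := le_trans (le_trans (le_max_left _ _) (le_max_left _ _)) hy
  have hyK : K0 ≤ y := le_trans (le_trans (le_max_right _ _) (le_max_left _ _)) hy
  have hy3 : 3 ≤ y := le_trans (le_trans (le_max_left _ _) (le_max_right _ _)) hy
  have hyu : ⌈u0⌉₊ ≤ y := le_trans (le_trans (le_max_right _ _) (le_max_right _ _)) hy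
  have hpow : ∀ j : ℕ, j ≤ CC * (b + 1) → y ^ j ≤ U := fun j hj => (Nat.pow_le_pow_right (by omega) hj).trans hU
  have hCCb : CC ≤ CC * (b + 1) := Nat.le_mul_of_pos_right _ (by omega)
  have hyU : y ≤ U := by
    have := hpow 1 (by omega)
    rwa [pow_one] at this
  have hyr : (3 : ℝ) ≤ y := by exact_mod_cast hy3
  have hyUr : (y : ℝ) ≤ U := by exact_mod_cast hyU
  have hU3 : (3 : ℝ) ≤ U := hyr.trans hyUr
  have hU0 : (0 : ℝ) < U := by linarith
  have hly : 1 ≤ Real.log y := by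
    rw [Real.le_log_iff_exp_le (by linarith)]
    have := Real.exp_one_lt_d9
    linarith
  have hlyU : Real.log y ≤ Real.log U := Real.log_le_log (by linarith) hyUr
  have hlU : 1 ≤ Real.log U := hly.trans hlyU
  have hnum := hu0 (U : ℝ) ((Nat.le_ceil u0).trans ((by exact_mod_cast hyu : ((⌈u0⌉₊ : ℕ) : ℝ) ≤ y).trans hyUr))
  -- the level
  obtain ⟨D, hD⟩ : ∃ D : ℕ, D = K0 * (2 ^ 2 ^ JJ y) ^ (C0 * b') := ⟨_, rfl⟩
  have hDy : D ≤ y ^ (2 * (C0 * b') + 1) := by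
    rw [hD, pow_succ, mul_comm]
    apply Nat.mul_le_mul _ hyK
    calc (2 ^ 2 ^ JJ y) ^ (C0 * b') ≤ (y ^ 2) ^ (C0 * b') := Nat.pow_le_pow_left (JJ_le y (by omega)) _
      _ = _ := by rw [← pow_mul]
  have hDU : D ^ 4 ≤ U := by
    calc D ^ 4 ≤ (y ^ (2 * (C0 * b') + 1)) ^ 4 := Nat.pow_le_pow_left hDy _
      _ = y ^ (8 * (C0 * b') + 4) := by rw [← pow_mul]; congr 1; ring
      _ ≤ U := hpow _ (by
          have h1 : C0 * b' ≤ C0 * (C0 + 1) * (b + 1) := by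
            rw [hb', mul_assoc]
            apply Nat.mul_le_mul_left
            nlinarith [Nat.zero_le (C0 * b)]
          rw [hCC]
          nlinarith [Nat.zero_le (⌈e⌉₊ * (b + 1)), Nat.zero_le b])
  have hDr := GFU_root D U hDU
  have hyr4 := GFU_root y U (hpow 4 (by omega))
  -- the errors
  have hsum : ∑ d ∈ Icc 1 D, (|Er U d (GFU_a n d)| + 2) ≤ CB * (U / Real.log U ^ 4) + 2 * (U : ℝ) ^ (1 / 4 : ℝ) := by
    rw [sum_add_distrib]
    refine add_le_add ?_ ?_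
    · refine le_trans ?_ (hbv U (by exact_mod_cast hU3) (GFU_a n) fun d hd => GFU_a_cop n d hd)
      refine sum_le_sum_of_subset_of_nonneg ?_ fun _ _ _ => abs_nonneg _
      exact Icc_subset_Icc le_rfl (Nat.le_floor hDr)
    · rw [sum_const, nsmul_eq_mul, Nat.card_Icc, Nat.add_sub_cancel]
      linarith
  have hJ : (JJ y : ℝ) + 2 ≤ 5 * Real.log U := by
    have h1 : JJ y ≤ Nat.log 2 y + 1 := by
      unfold JJ
      have := Nat.log_le_self 2 (Nat.log 2 y)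
      omega
    have h2 : (JJ y : ℝ) ≤ Nat.log 2 y + 1 := by exact_mod_cast h1
    have h3 := natlog_le y (by omega)
    linarith
  have hbC : C0 ≤ b' := by omega
  have hF := hfl b' hbC y U n
  rw [← hD] at hF
  obtain ⟨M, hM⟩ : ∃ M : ℝ, M = (OP U).card * GS y n := ⟨_, rfl⟩
  rw [← hM] at hF ⊢
  have hM0 : 0 ≤ M := by
    rw [hM]
    refine mul_nonneg (Nat.cast_nonneg _) (prod_nonneg fun p hp => ?_)
    rw [mem_filter, mem_filter, mem_Icc] at hp
    have h3 : (3 : ℝ) ≤ p := by exact_mod_cast hp.1.1.1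
    rw [sub_nonneg, div_le_one (by linarith)]
    linarith
  obtain ⟨R, hR⟩ : ∃ R : ℝ, R = ((JJ y : ℝ) + 2) * ∑ d ∈ Icc 1 D, (|Er U d (GFU_a n d)| + 2) := ⟨_, rfl⟩
  rw [← hR] at hF
  have hR1 : R + y ≤ (1 / 2 : ℝ) ^ (b + 3) * κ * (U / Real.log U ^ 2) := by
    refine le_trans (add_le_add ?_ hyr4) hnum
    rw [hR]
    exact mul_le_mul hJ hsum (sum_nonneg fun _ _ => by positivity) (by linarith)
  obtain ⟨s1, s2⟩ := GFU_SA y U n hn
  have s1' : ((SA (OP U) y n).card : ℝ) ≤ ((OP U).filter (fun h => ∀ p ∈ GFU_P y n, ¬ p ∣ n + h)).card := by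
    exact_mod_cast s1
  have s2' : (((OP U).filter (fun h => ∀ p ∈ GFU_P y n, ¬ p ∣ n + h)).card : ℝ) ≤ (SA (OP U) y n).card + y := by
    exact_mod_cast s2
  have hlo := hy1 y hy1' U (by
    refine le_trans ?_ (by exact_mod_cast hpow CC hCCb : (y : ℝ) ^ CC ≤ U)
    rw [← Real.rpow_natCast]
    refine Real.rpow_le_rpow_of_exponent_le (by linarith) ?_
    have h1 := Nat.le_ceil e
    rw [hCC]
    push_cast
    nlinarith [Nat.cast_nonneg (α := ℝ) C0]) n hn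
  obtain ⟨Z, hZ⟩ : ∃ Z : ℝ, Z = κ * (U / Real.log U ^ 2) := ⟨_, rfl⟩
  have hZ0 : 0 ≤ Z := by rw [hZ]; positivity
  have hZS : Z ≤ ((SA (OP U) y n).card : ℝ) := by
    refine le_trans ?_ hlo
    rw [hZ]
    have hl0 : 0 < Real.log (U : ℝ) := by linarith
    have hl1 : 0 < Real.log (y : ℝ) := by linarith
    gcongr
    rw [sq]
    gcongr
  have hR2 : R + y ≤ (1 / 2 : ℝ) ^ (b + 3) * Z := by
    rw [hZ, ← mul_assoc]
    exact hR1
  obtain ⟨t, ht⟩ : ∃ t : ℝ, t = (1 / 2 : ℝ) ^ b := ⟨_, rfl⟩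
  have ht0 : 0 < t := by rw [ht]; positivity
  have ht1 : t ≤ 1 := by rw [ht]; exact pow_le_one₀ (by norm_num) (by norm_num)
  have e3 : (1 / 2 : ℝ) ^ (b + 3) = t / 8 := by rw [pow_add, ← ht]; ring
  have e4 : (1 / 2 : ℝ) ^ b' ≤ t / 2 := by
    calc (1 / 2 : ℝ) ^ b' ≤ (1 / 2 : ℝ) ^ (b + 1) := pow_le_pow_of_le_one (by norm_num) (by norm_num) (by omega)
      _ = t / 2 := by rw [pow_succ, ← ht]; ring
  rw [e3] at hR2
  rw [← ht]
  have hq : (1 / 2 : ℝ) ^ b' * M ≤ t / 2 * M := mul_le_mul_of_nonneg_right e4 hM0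
  obtain ⟨g1, g2⟩ := abs_le.1 hF
  have hy0 : (0 : ℝ) ≤ y := by linarith
  clear hM hZ hR hF hnum hsum hJ hDr hyr4 hR1 hlo hu0
  have htM : t / 2 * M ≤ 1 / 2 * M := mul_le_mul_of_nonneg_right (by linarith) hM0
  have htZ : t / 8 * Z ≤ 1 / 8 * Z := mul_le_mul_of_nonneg_right (by linarith) hZ0
  have hMZ : Z / 4 ≤ M := by linarith
  have hfin : R + y ≤ t / 2 * M := by
    refine hR2.trans ?_
    calc t / 8 * Z = t / 2 * (Z / 4) := by ring
      _ ≤ t / 2 * M := mul_le_mul_of_nonneg_left hMZ (by linarith)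
  rw [abs_le]
  constructor <;> linarith

end Pool.Agent.N422.GB
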