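import Pool.Agent.N422.GB.Stm2
import Pool.Agent.N422.EH.EHF

/-! Project GB (helper422), job GB/GLAW (helper695): the law for Goldbach representations with a small prime.
The proof follows EH/EHF (helper722). -/

set_option autoImplicit false

open Finset

namespace Pool.Agent.N422.GB

open Pool.Agent.N422.NW Pool.Agent.N422.SL Pool.Agent.N422.WS Pool.Agent.N422.LG Pool.Agent.N422.LR Pool.Agent.N422.EH

theorem GLAW_fac {p : ℕ} (hp : 3 ≤ p) : 0 ≤ 1 - 1 / ((p : ℝ) - 1) ∧ 1 - 1 / ((p : ℝ) - 1) ≤ 1 := by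
  have h1 : (3 : ℝ) ≤ p := by exact_mod_cast hp
  have h2 : 1 / ((p : ℝ) - 1) ≤ 1 / 2 := one_div_le_one_div_of_le (by norm_num) (by linarith)
  have h3 : 0 ≤ 1 / ((p : ℝ) - 1) := by
    have : (0 : ℝ) < (p : ℝ) - 1 := by linarith
    positivity
  constructor <;> linarith

theorem GLAW_PQ3 {Q y p : ℕ} (hy : 2 ≤ y) (hp : p ∈ PQ Q y) : 3 ≤ p := by
  simp only [PQ, Finset.mem_filter, Finset.mem_Icc] at hp
  omega

/-- the part of the density from the primes in `(y, Q]` -/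
noncomputable def GLAW_V (Q y : ℕ) : ℝ := ∏ p ∈ PQ Q y, (1 - 1 / ((p : ℝ) - 1))

theorem GLAW_GS_nonneg (z n : ℕ) : 0 ≤ GS z n :=
  Finset.prod_nonneg fun _ hp =>
    (GLAW_fac (Finset.mem_Icc.1 (Finset.mem_filter.1 (Finset.mem_filter.1 hp).1).1).1).1

theorem GLAW_GS_le_one (z n : ℕ) : GS z n ≤ 1 :=
  Finset.prod_le_one (fun _ hp =>
    (GLAW_fac (Finset.mem_Icc.1 (Finset.mem_filter.1 (Finset.mem_filter.1 hp).1).1).1).1)
    fun _ hp => (GLAW_fac (Finset.mem_Icc.1 (Finset.mem_filter.1 (Finset.mem_filter.1 hp).1).1).1).2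

theorem GLAW_V_nonneg {Q y : ℕ} (hy : 2 ≤ y) : 0 ≤ GLAW_V Q y :=
  Finset.prod_nonneg fun _ hp => (GLAW_fac (GLAW_PQ3 hy hp)).1

theorem GLAW_split (y Q : ℕ) (hy : 2 ≤ y) (h : y ≤ Q) : (Icc 3 Q).filter Nat.Prime =
      PQ Q y ∪ (Icc 3 y).filter Nat.Prime := by
  ext p
  simp only [PQ, Finset.mem_filter, Finset.mem_union, Finset.mem_Icc]
  constructor
  · rintro ⟨⟨h1, h2⟩, h3⟩
    by_cases h4 : y < p
    · exact Or.inl ⟨⟨by omega, h2⟩, h3, h4⟩
    · exact Or.inr ⟨⟨h1, by omega⟩, h3⟩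
  · rintro (⟨⟨h1, h2⟩, h3, h4⟩ | ⟨⟨h1, h2⟩, h3⟩)
    · exact ⟨⟨by omega, h2⟩, h3⟩
    · exact ⟨⟨h1, by omega⟩, h3⟩

theorem GLAW_disj (y Q : ℕ) : Disjoint (PQ Q y) ((Icc 3 y).filter Nat.Prime) := by
  rw [Finset.disjoint_left]
  intro p hp hq
  simp only [PQ, Finset.mem_filter, Finset.mem_Icc] at hp hq
  omega

theorem GLAW_GSV (y Q n : ℕ) (hy : 2 ≤ y) (h : y ≤ Q) :
    GS Q n = (∏ p ∈ (PQ Q y).filter (fun p => ¬ p ∣ n), (1 - 1 / ((p : ℝ) - 1))) * GS y n := by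
  unfold GS
  rw [GLAW_split y Q hy h, Finset.filter_union, Finset.prod_union]
  exact Finset.disjoint_filter_filter (GLAW_disj y Q)

theorem GLAW_GS_lo (y Q n : ℕ) (hy : 2 ≤ y) (h : y ≤ Q) : GLAW_V Q y * GS y n ≤ GS Q n := by
  rw [GLAW_GSV y Q n hy h]
  refine mul_le_mul_of_nonneg_right ?_ (GLAW_GS_nonneg y n)
  unfold GLAW_V
  rw [← Finset.prod_filter_mul_prod_filter_not (PQ Q y) (fun p => ¬ p ∣ n)]
  refine mul_le_of_le_one_right ?_ ?_
  · exact Finset.prod_nonneg fun _ hp => (GLAW_fac (GLAW_PQ3 hy (Finset.mem_filter.1 hp).1)).1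
  · exact Finset.prod_le_one (fun _ hp => (GLAW_fac (GLAW_PQ3 hy (Finset.mem_filter.1 hp).1)).1)
      fun _ hp => (GLAW_fac (GLAW_PQ3 hy (Finset.mem_filter.1 hp).1)).2

theorem GLAW_inv {p : ℕ} (hp : 3 ≤ p) : 1 / ((p : ℝ) - 1) ≤ 2 * (1 / (p : ℝ)) := by
  have h1 : (3 : ℝ) ≤ p := by exact_mod_cast hp
  rw [mul_one_div, div_le_div_iff₀ (by linarith) (by linarith)]
  linarith

theorem GLAW_GS_hi (y Q n : ℕ) (hy : 2 ≤ y) (h : y ≤ Q) :
    GS Q n ≤ GLAW_V Q y * GS y n + 2 * XX Q y n := by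
  rw [GLAW_GSV y Q n hy h]
  set B : ℝ := ∏ p ∈ (PQ Q y).filter (fun p => ¬ p ∣ n), (1 - 1 / ((p : ℝ) - 1)) with hB
  have hB0 : 0 ≤ B :=
    Finset.prod_nonneg fun _ hp => (GLAW_fac (GLAW_PQ3 hy (Finset.mem_filter.1 hp).1)).1
  have hB1 : B ≤ 1 :=
    Finset.prod_le_one (fun _ hp => (GLAW_fac (GLAW_PQ3 hy (Finset.mem_filter.1 hp).1)).1)
      fun _ hp => (GLAW_fac (GLAW_PQ3 hy (Finset.mem_filter.1 hp).1)).2
  set C : ℝ := ∏ p ∈ (PQ Q y).filter (fun p => p ∣ n), (1 - 1 / ((p : ℝ) - 1)) with hC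
  have hV : GLAW_V Q y = C * B := by
    unfold GLAW_V
    rw [← Finset.prod_filter_mul_prod_filter_not (PQ Q y) (fun p => p ∣ n)]
  have hC1 : 1 - 2 * XX Q y n ≤ C := by
    have k1 : 1 - ∑ p ∈ (PQ Q y).filter (fun p => p ∣ n), 1 / ((p : ℝ) - 1) ≤ C := by
      refine EHF_one_sub _ (fun p => 1 / ((p : ℝ) - 1)) fun p hp => ?_
      have k := GLAW_fac (GLAW_PQ3 hy (Finset.mem_filter.1 hp).1)
      constructor <;> linarith [k.1, k.2]
    have k2 : ∑ p ∈ (PQ Q y).filter (fun p => p ∣ n), 1 / ((p : ℝ) - 1) ≤ 2 * XX Q y n := by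
      unfold XX
      rw [Finset.mul_sum]
      exact Finset.sum_le_sum fun p hp => GLAW_inv (GLAW_PQ3 hy (Finset.mem_filter.1 hp).1)
    linarith
  have hX := EHF_XX_nonneg Q y n
  have hG0 := GLAW_GS_nonneg y n
  have hG1 := GLAW_GS_le_one y n
  have h1 : B ≤ C * B + 2 * XX Q y n := by nlinarith
  rw [hV]
  calc B * GS y n ≤ (C * B + 2 * XX Q y n) * GS y n := mul_le_mul_of_nonneg_right h1 hG0
    _ = C * B * GS y n + 2 * XX Q y n * GS y n := by ring
    _ ≤ C * B * GS y n + 2 * XX Q y n := by nlinarith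

/-- `V ≤ exp(-D)` -/
theorem GLAW_V_le (Q y : ℕ) (hy : 2 ≤ y) : GLAW_V Q y ≤ Real.exp (-∑ p ∈ PQ Q y, 1 / (p : ℝ)) := by
  unfold GLAW_V
  rw [← Finset.sum_neg_distrib, Real.exp_sum]
  refine Finset.prod_le_prod (fun p hp => (GLAW_fac (GLAW_PQ3 hy hp)).1) fun p hp => ?_
  have h1 : (3 : ℝ) ≤ p := by exact_mod_cast GLAW_PQ3 hy hp
  have h2 := Real.add_one_le_exp (-(1 / (p : ℝ)))
  have h3 : 1 / (p : ℝ) ≤ 1 / ((p : ℝ) - 1) :=
    one_div_le_one_div_of_le (by linarith) (by linarith)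
  linarith

theorem GLAW_fac2 {p : ℕ} (hp : 3 ≤ p) :
    Real.exp (-(1 / (p : ℝ)) - 5 * (2 * (1 / (p : ℝ)) ^ 2)) ≤ 1 - 1 / ((p : ℝ) - 1) := by
  have h1 : (3 : ℝ) ≤ p := by exact_mod_cast hp
  have h0 := GLAW_inv hp
  have h2 : 1 / ((p : ℝ) - 1) ≤ 1 / 2 := one_div_le_one_div_of_le (by norm_num) (by linarith)
  have h3 : 0 ≤ 1 / ((p : ℝ) - 1) := by
    have : (0 : ℝ) < (p : ℝ) - 1 := by linarith
    positivity
  refine le_trans ?_ (EHF_FINU_fac h3 h2)
  apply Real.exp_le_exp.2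
  set a : ℝ := 1 / ((p : ℝ) - 1) with ha
  set b : ℝ := 1 / (p : ℝ) with hb
  have e1 : a - b = a * b := by
    rw [ha, hb]
    have k1 : (p : ℝ) - 1 ≠ 0 := by linarith
    have k2 : (p : ℝ) ≠ 0 := by linarith
    field_simp
    ring
  have hb0 : 0 ≤ b := by positivity
  have e2 : a * b ≤ 2 * b ^ 2 := by nlinarith
  have e3 : a ^ 2 ≤ 4 * b ^ 2 := by nlinarith
  nlinarith

/-- `exp(-D) ≤ exp(10/y) V` -/
theorem GLAW_V_ge (Q y : ℕ) (hy : 2 ≤ y) (h : y ≤ Q) :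
    Real.exp (-∑ p ∈ PQ Q y, 1 / (p : ℝ)) ≤ Real.exp (10 / (y : ℝ)) * GLAW_V Q y := by
  have hsq := EHF_FINU_sq y Q hy h
  have h3 : Real.exp (∑ p ∈ PQ Q y, (-(1 / (p : ℝ)) - 5 * (2 * (1 / (p : ℝ)) ^ 2))) ≤
      GLAW_V Q y := by
    unfold GLAW_V
    rw [Real.exp_sum]
    exact Finset.prod_le_prod (fun p _ => (Real.exp_pos _).le) fun p hp =>
      GLAW_fac2 (GLAW_PQ3 hy hp)
  refine le_trans ?_ (mul_le_mul_of_nonneg_left h3 (Real.exp_pos _).le)
  rw [← Real.exp_add]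
  apply Real.exp_le_exp.2
  rw [Finset.sum_sub_distrib, Finset.sum_neg_distrib, ← Finset.mul_sum]
  have h5 : (10 : ℝ) / y = 5 * (2 / (y : ℝ)) := by ring
  have hsq' : ∑ p ∈ PQ Q y, 2 * (1 / (p : ℝ)) ^ 2 ≤ 2 / (y : ℝ) := hsq
  rw [h5]
  linarith

/-- Chebyshev -/
theorem GLAW_cheb {U : ℕ} (hU : 81 ≤ U) : (U : ℝ) / (4 * Real.log U) ≤ ((OP U).card : ℝ) := by
  have hUr : (81 : ℝ) ≤ U := by exact_mod_cast hU
  have h1 := Chebyshev.pi_ge U
  have hl0 : 0 < Real.log U := Real.log_pos (by linarith)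
  have h2 : Nat.primeCounting U ≤ (OP U).card + 1 := by
    have e : Nat.primeCounting U = ((Icc 1 U).filter Nat.Prime).card := by
      rw [Nat.primeCounting, Nat.primeCounting', Nat.count_eq_card_filter_range]
      congr 1
      ext p
      simp only [Finset.mem_filter, Finset.mem_range, Finset.mem_Icc]
      constructor
      · rintro ⟨a, b⟩
        exact ⟨⟨b.one_lt.le, by omega⟩, b⟩
      · rintro ⟨⟨a, b⟩, c⟩
        exact ⟨by omega, c⟩
    rw [e]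
    have s : (Icc 1 U).filter Nat.Prime ⊆ insert 2 (OP U) := by
      intro p hp
      simp only [OP, Finset.mem_filter, Finset.mem_insert, Finset.mem_Icc] at hp ⊢
      by_cases h : p = 2
      · exact Or.inl h
      · have := hp.2.two_le
        exact Or.inr ⟨⟨by omega, hp.1.2⟩, hp.2⟩
    exact (Finset.card_le_card s).trans (Finset.card_insert_le _ _)
  have h3 : ((Nat.primeCounting U : ℕ) : ℝ) ≤ ((OP U).card : ℝ) + 1 := by exact_mod_cast h2
  have h4 : ((U : ℝ) * Real.log 2 - Real.log (U + 1)) / Real.log U ≤ ((OP U).card : ℝ) + 1 :=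
    h1.trans h3
  rw [div_le_iff₀ hl0] at h4
  rw [div_le_iff₀ (by positivity)]
  have g1 : Real.log ((U : ℝ) + 1) ≤ ((U : ℝ) + 1) / 16 - 1 + Real.log 16 := by
    have k := Real.log_le_sub_one_of_pos (x := ((U : ℝ) + 1) / 16) (by positivity)
    rw [Real.log_div (by positivity) (by norm_num)] at k
    linarith
  have g2 : Real.log (U : ℝ) ≤ Real.log ((U : ℝ) + 1) :=
    Real.log_le_log (by linarith) (by linarith)
  have g3 : Real.log 16 = 4 * Real.log 2 := by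
    rw [show (16 : ℝ) = 2 ^ 4 by norm_num, Real.log_pow]
    norm_num
  have g4 := Real.log_two_gt_d9
  have g5 := Real.log_two_lt_d9
  have g6 : (U : ℝ) * 0.69 ≤ U * Real.log 2 :=
    mul_le_mul_of_nonneg_left (by linarith) (by linarith)
  nlinarith

theorem GLAW_per (A : Finset ℕ) (y n : ℕ) : SA A y (n + PP y) = SA A y n := by
  unfold SA
  refine Finset.filter_congr fun h _ => ?_
  have key : ∀ p ∈ (Icc 1 y).filter Nat.Prime, (p ∣ n + PP y + h ↔ p ∣ n + h) := by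
    intro p hp
    have h1 : p ∣ PP y := Finset.dvd_prod_of_mem (fun p => p) hp
    have h2 : n + PP y + h = PP y + (n + h) := by ring
    rw [h2]
    exact (Nat.dvd_add_right h1)
  constructor
  · intro hh p hp hd
    exact hh p hp ((key p hp).2 hd)
  · intro hh p hp hd
    exact hh p hp ((key p hp).1 hd)

theorem GLAW_left (A : Finset ℕ) (y Q n : ℕ) (h : y ≤ Q) :
    left (PQ Q y) (SA A y n) n = SA A Q n := by
  unfold left SA
  rw [Finset.filter_filter]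
  refine Finset.filter_congr fun m _ => ?_
  constructor
  · rintro ⟨h1, h2⟩ p hp
    simp only [Finset.mem_filter, Finset.mem_Icc] at hp
    by_cases hpy : p ≤ y
    · exact h1 p (by simp only [Finset.mem_filter, Finset.mem_Icc]; exact ⟨⟨hp.1.1, hpy⟩, hp.2⟩)
    · refine h2 p ?_
      simp only [PQ, Finset.mem_filter, Finset.mem_Icc]
      exact ⟨hp.1, hp.2, by omega⟩
  · intro hh
    constructor
    · intro p hp
      simp only [Finset.mem_filter, Finset.mem_Icc] at hp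
      refine hh p ?_
      simp only [Finset.mem_filter, Finset.mem_Icc]
      exact ⟨⟨hp.1.1, by omega⟩, hp.2⟩
    · intro p hp
      simp only [PQ, Finset.mem_filter, Finset.mem_Icc] at hp
      refine hh p ?_
      simp only [Finset.mem_filter, Finset.mem_Icc]
      exact ⟨hp.1, hp.2.1⟩

/-- the error between the scales -/
theorem GLAW_err {U y L ly C2 K D δ ε A : ℝ} (hε : 0 < ε) (hε1 : ε ≤ 1) (hC2b : 1 ≤ C2)
    (hA : A = 257 * 40 * 256 * 8 * C2 / ε ^ 3) (q2 : 3 ≤ L) (hK1 : 1 ≤ K) (hAK : A * K ^ 3 ≤ L)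
    (hy1 : L ^ 4 ≤ y) (hUL : L ^ 4 ≤ U) (hδ0 : 0 < δ) (hinv : 1 / δ = 256 * K / ε) (hD0 : 0 ≤ D)
    (hDK : D ≤ K) (hlogy : 1 ≤ ly) :
    (D / δ + 1) * ((U / y + 1) * (20 * (L / ly) / δ)) ≤ ε / 8 * (U * (1 / (C2 * L ^ 2))) := by
  have hL0 : 0 < L := by linarith
  have hL4 : 0 < L ^ 4 := by positivity
  have hU0 : 0 ≤ U := by linarith
  have hyp : 0 < y := by linarith
  have hK0 : 0 < K := by linarith
  have hC0 : 0 < C2 := by linarith
  have hly : 0 < ly := by linarith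
  have f1 : D / δ + 1 ≤ 257 * K ^ 2 / ε := by
    have g1 : D / δ ≤ K / δ := div_le_div_of_nonneg_right hDK hδ0.le
    have g2 : K / δ = 256 * K ^ 2 / ε := by
      rw [div_eq_mul_one_div, hinv]
      ring
    have g3 : 1 ≤ K ^ 2 / ε := EHF_r6 hK1 hε hε1
    have g4 : 257 * K ^ 2 / ε = 256 * K ^ 2 / ε + K ^ 2 / ε := by ring
    linarith
  have f2 : U / y + 1 ≤ 2 * (U / L ^ 4) := by
    have g1 : U / y ≤ U / L ^ 4 := div_le_div_of_nonneg_left hU0 hL4 hy1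
    have g2 : 1 ≤ U / L ^ 4 := by
      rw [le_div_iff₀ hL4]
      linarith
    linarith
  have f3 : 20 * (L / ly) / δ ≤ 20 * L * (256 * K / ε) := by
    rw [div_eq_mul_one_div, hinv]
    refine mul_le_mul_of_nonneg_right ?_ (by positivity)
    have : L / ly ≤ L := div_le_self hL0.le hlogy
    linarith
  have f4 : (0 : ℝ) ≤ D / δ + 1 := by positivity
  have f5 : (0 : ℝ) ≤ 20 * (L / ly) / δ := by positivity
  calc (D / δ + 1) * ((U / y + 1) * (20 * (L / ly) / δ))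
      ≤ (257 * K ^ 2 / ε) * ((2 * (U / L ^ 4)) * (20 * L * (256 * K / ε))) := by
        refine mul_le_mul f1 ?_ (by positivity) (by positivity)
        exact mul_le_mul f2 f3 f5 (by positivity)
    _ = (A * K ^ 3) * (ε / 8 * (U / (C2 * L ^ 3))) := by
        rw [hA]
        field_simp
        ring
    _ ≤ L * (ε / 8 * (U / (C2 * L ^ 3))) := mul_le_mul_of_nonneg_right hAK (by positivity)
    _ = ε / 8 * (U * (1 / (C2 * L ^ 2))) := by
        field_simp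

theorem GLAW_r12 {A C2 L ε : ℝ} (hA : A = 257 * 40 * 256 * 8 * C2 / ε ^ 3) (hC : 1 ≤ C2)
    (hε : 0 < ε) (hε1 : ε ≤ 1) (hAL : A ≤ L) : 1280 * C2 ≤ ε * L := by
  have k1 : ε * A ≤ ε * L := mul_le_mul_of_nonneg_left hAL hε.le
  have k2 : 1280 * C2 ≤ ε * A := by
    rw [hA]
    have k3 : ε * (257 * 40 * 256 * 8 * C2 / ε ^ 3) = 257 * 40 * 256 * 8 * C2 / ε ^ 2 := by
      field_simp
    rw [k3, le_div_iff₀ (by positivity)]
    have k4 : ε ^ 2 ≤ 1 := pow_le_one₀ hε.le hε1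
    have k5 : 1280 * C2 * ε ^ 2 ≤ 1280 * C2 * 1 := mul_le_mul_of_nonneg_left k4 (by linarith)
    linarith
  linarith

set_option maxHeartbeats 4000000 in
theorem t_GLAW (h1 : S_GFU) (h2 : Pool.Agent.N422.EH.S_RECG) (h3 : Pool.Agent.N422.EH.S_XB)
    (h4 : Pool.Agent.N422.LG.S_MERB) : S_GLAW := by
  obtain ⟨C', hC', h1⟩ := h1
  obtain ⟨C1, hC1, h4⟩ := h4
  refine ⟨20 * C', by omega, fun b => ?_⟩
  obtain ⟨y0, hy0⟩ := h1 (b + 3)
  have hε : 0 < (1 / 2 : ℝ) ^ b := by positivity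
  have hε1 : (1 / 2 : ℝ) ^ b ≤ 1 := pow_le_one₀ (by norm_num) (by norm_num)
  have hb2 : (1 / 2 : ℝ) ^ (b + 3) = (1 / 2 : ℝ) ^ b / 8 := by
    rw [pow_add]
    norm_num
    ring
  rw [hb2] at hy0
  set ε : ℝ := (1 / 2 : ℝ) ^ b with hεd
  set C2 : ℝ := 4 * Real.exp (5 + C1) with hC2
  have hexpC : 1 + (5 + C1) ≤ Real.exp (5 + C1) := by
    have := Real.add_one_le_exp (5 + C1)
    linarith
  have hC2a : C1 ≤ C2 := by linarith
  have hC2b : 1 ≤ C2 := by linarith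
  clear_value ε
  set A : ℝ := 257 * 40 * 256 * 8 * C2 / ε ^ 3 with hA
  have hA0 : 0 < A := by
    have : 0 < C2 := by linarith
    positivity
  clear_value A
  obtain ⟨Q0, hQ0⟩ := Filter.eventually_atTop.1 (EHF_FIN_ev y0 C2 (8 * A) (by positivity))
  refine ⟨Q0, fun Q hQ U hU hUQ c hw hwa => ?_⟩
  obtain ⟨q1, q2, q3, q4, q5, q6⟩ := hQ0 Q hQ
  obtain ⟨m1, m2⟩ := h4 Q q1
  set L : ℝ := Real.log Q with hL
  set K : ℝ := Real.log L + C2 with hK
  clear_value K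
  have hK1 : 1 ≤ K := by
    have : 0 ≤ Real.log L := Real.log_nonneg (by linarith)
    linarith
  -- `A K^3 ≤ L`
  have hAK : A * K ^ 3 ≤ L := by
    have hlog : 0 ≤ Real.log L := Real.log_nonneg (by linarith)
    have h4 : K ≤ 2 * Real.log L := by linarith
    have h5 : K ^ 3 ≤ (2 * Real.log L) ^ 3 := pow_le_pow_left₀ (by linarith) h4 3
    calc A * K ^ 3 ≤ A * (2 * Real.log L) ^ 3 := mul_le_mul_of_nonneg_left h5 hA0.le
      _ = 8 * A * Real.log L ^ 3 := by ring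
      _ ≤ L := q5
  have hL4 : (3 : ℝ) ≤ L ^ 4 := by
    have h5 := pow_le_pow_left₀ (by norm_num : (0:ℝ) ≤ 3) q2 4
    norm_num at h5
    linarith
  have hL81 : (81 : ℝ) ≤ L ^ 4 := by
    have h5 := pow_le_pow_left₀ (by norm_num : (0:ℝ) ≤ 3) q2 4
    norm_num at h5
    linarith
  have hLL4 : L ≤ L ^ 4 := by
    calc L = L ^ 1 := (pow_one L).symm
      _ ≤ L ^ 4 := pow_le_pow_right₀ (by linarith) (by norm_num)
  -- the first scale
  set y : ℕ := ⌈L ^ 4⌉₊ with hy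
  have hy1 : L ^ 4 ≤ (y : ℝ) := Nat.le_ceil _
  have hy2 : (y : ℝ) < L ^ 4 + 1 := Nat.ceil_lt_add_one (by positivity)
  have hy5 : (y : ℝ) ≤ L ^ 5 := EHF_r1 q2 hL4 hy2
  have hyr : (3 : ℝ) ≤ y := hL4.trans hy1
  have hy3 : 3 ≤ y := by exact_mod_cast hyr
  have hyQ : y ≤ Q := by
    have : (y : ℝ) ≤ Q := hy5.trans q6
    exact_mod_cast this
  have hyy0 : y0 ≤ y := by
    have : (y0 : ℝ) ≤ y := by linarith
    exact_mod_cast this
  have hUy : y ^ (C' * (b + 3 + 1)) ≤ U := by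
    have h4 : ((y : ℝ)) ^ (C' * (b + 3 + 1)) ≤ U := by
      calc ((y : ℝ)) ^ (C' * (b + 3 + 1)) ≤ (L ^ 5) ^ (C' * (b + 3 + 1)) :=
            pow_le_pow_left₀ (by positivity) hy5 _
        _ = L ^ (5 * (C' * (b + 3 + 1))) := by rw [← pow_mul]
        _ ≤ L ^ (20 * C' * (b + 1)) := by
            exact pow_le_pow_right₀ (by linarith) EHF_r2
        _ ≤ U := hU
    exact_mod_cast h4
  have hUL : L ^ 4 ≤ (U : ℝ) := by
    refine le_trans ?_ hU
    exact pow_le_pow_right₀ (by linarith) (EHF_r3 hC')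
  have hf := hy0 y hyy0 U hUy
  -- the number of the primes
  set N : ℝ := ((OP U).card : ℝ) with hN
  have hN0 : 0 ≤ N := Nat.cast_nonneg _
  have hL0 : 0 < L := by linarith
  have hUpos : (0 : ℝ) < U := by linarith
  have hNlo : (U : ℝ) / (4 * L) ≤ N := by
    have hU81 : 81 ≤ U := by
      have : (81 : ℝ) ≤ U := hL81.trans hUL
      exact_mod_cast this
    have k1 := GLAW_cheb hU81
    have k2 : Real.log U ≤ L := Real.log_le_log hUpos (by exact_mod_cast hUQ)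
    have k3 : 0 < Real.log U := Real.log_pos (by linarith)
    have k4 : (U : ℝ) / (4 * L) ≤ (U : ℝ) / (4 * Real.log U) :=
      div_le_div_of_nonneg_left hUpos.le (by positivity) (by linarith)
    exact k4.trans k1
  clear_value N
  -- the means
  set M : ℝ := mQ Q (wt Q c) with hM
  have hM0 : 0 ≤ M := EHF_FIN_nonneg Q hw
  set Gy : ℝ := mQ Q (fun n => wt Q c n * GS y n) with hGy
  set GQ : ℝ := mQ Q (fun n => wt Q c n * GS Q n) with hGQ
  set X : ℝ := mQ Q (fun n => wt Q c n * XX Q y n) with hX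
  set Sy : ℝ := mQ Q (fun n => wt Q c n * ((SA (OP U) y n).card : ℝ)) with hSy
  set SQ : ℝ := mQ Q (fun n => wt Q c n * ((SA (OP U) Q n).card : ℝ)) with hSQ
  have hGy0 : 0 ≤ Gy := EHF_FIN_nonneg Q fun n => mul_nonneg (hw n) (GLAW_GS_nonneg y n)
  have hGQ0 : 0 ≤ GQ := EHF_FIN_nonneg Q fun n => mul_nonneg (hw n) (GLAW_GS_nonneg Q n)
  have hX0 : 0 ≤ X := EHF_FIN_nonneg Q fun n => mul_nonneg (hw n) (EHF_XX_nonneg Q y n)
  have hSy0 : 0 ≤ Sy := EHF_FIN_nonneg Q fun n => mul_nonneg (hw n) (Nat.cast_nonneg _)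
  have hU0 : (0 : ℝ) ≤ U := Nat.cast_nonneg _
  have hfn : ∀ n, wt Q c n ≠ 0 →
      |((SA (OP U) y n).card : ℝ) - N * GS y n| ≤ ε / 8 * (N * GS y n) := by
    intro n hn
    apply hf n
    by_contra hne
    exact hn (hwa n (Nat.not_even_iff_odd.1 hne))
  have hmlo : (1 - ε / 8) * N * Gy ≤ Sy := by
    rw [hGy, hSy, ← EHF_FIN_smul]
    refine EHF_FIN_mono Q fun n => ?_
    by_cases hn : wt Q c n = 0
    · simp [hn]
    · have h5 := (abs_le.1 (hfn n hn)).1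
      have h6 : (1 - ε / 8) * (N * GS y n) ≤ ((SA (OP U) y n).card : ℝ) := by linarith
      have h7 := mul_le_mul_of_nonneg_left h6 (hw n)
      calc (1 - ε / 8) * N * (wt Q c n * GS y n) = wt Q c n * ((1 - ε / 8) * (N * GS y n)) := by ring
        _ ≤ _ := h7
  have hmhi : Sy ≤ (1 + ε / 8) * N * Gy := by
    rw [hGy, hSy, ← EHF_FIN_smul]
    refine EHF_FIN_mono Q fun n => ?_
    by_cases hn : wt Q c n = 0
    · simp [hn]
    · have h5 := (abs_le.1 (hfn n hn)).2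
      have h6 : ((SA (OP U) y n).card : ℝ) ≤ (1 + ε / 8) * (N * GS y n) := by linarith
      have h7 := mul_le_mul_of_nonneg_left h6 (hw n)
      calc _ ≤ _ := h7
        _ = (1 + ε / 8) * N * (wt Q c n * GS y n) := by ring
  have hMG : GLAW_V Q 2 * M ≤ GQ := by
    rw [hM, hGQ, ← EHF_FIN_smul]
    refine EHF_FIN_mono Q fun n => ?_
    rw [mul_comm]
    refine mul_le_mul_of_nonneg_left ?_ (hw n)
    have k := GLAW_GS_lo 2 Q n le_rfl (by omega)
    have k2 : GS 2 n = 1 := by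
      unfold GS
      rw [show Icc 3 2 = (∅ : Finset ℕ) from rfl]
      simp
    rwa [k2, mul_one] at k
  have hVG : GLAW_V Q y * Gy ≤ GQ := by
    rw [hGy, hGQ, ← EHF_FIN_smul]
    refine EHF_FIN_mono Q fun n => ?_
    calc GLAW_V Q y * (wt Q c n * GS y n) = wt Q c n * (GLAW_V Q y * GS y n) := by ring
      _ ≤ _ := mul_le_mul_of_nonneg_left (GLAW_GS_lo y Q n (by omega) hyQ) (hw n)
  have hVG2 : GQ ≤ GLAW_V Q y * Gy + 2 * X := by
    rw [hGy, hGQ, hX, ← EHF_FIN_smul, ← EHF_FIN_smul, ← EHF_add]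
    refine EHF_FIN_mono Q fun n => ?_
    calc wt Q c n * GS Q n ≤ wt Q c n * (GLAW_V Q y * GS y n + 2 * XX Q y n) :=
          mul_le_mul_of_nonneg_left (GLAW_GS_hi y Q n (by omega) hyQ) (hw n)
      _ = _ := by ring
  -- the parameter
  set δ : ℝ := ε / (256 * K) with hδ
  have hK0 : 0 < K := by linarith
  have hδ0 : 0 < δ := by positivity
  clear_value δ
  have hδK : δ * (256 * K) = ε := by rw [hδ]; field_simp
  have hδε : δ ≤ ε / 256 := EHF_r4 hδK hδ0 hK1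
  have hδ1 : δ ≤ 1 / 16 := by linarith
  have hinv : 1 / δ = 256 * K / ε := by
    rw [hδ]
    field_simp
  have hε3 : ε ^ 3 ≤ ε := by
    calc ε ^ 3 ≤ ε ^ 1 := pow_le_pow_of_le_one hε.le hε1 (by norm_num)
      _ = ε := pow_one _
  have hK3 : K ≤ K ^ 3 := by
    calc K = K ^ 1 := (pow_one K).symm
      _ ≤ K ^ 3 := pow_le_pow_right₀ hK1 (by norm_num)
  have hyδ : 1 / (y : ℝ) ≤ δ := by
    have h4 : 1 / δ ≤ y := by
      rw [hinv]
      calc 256 * K / ε ≤ 256 * K / ε ^ 3 := div_le_div_of_nonneg_left (by positivity) (by positivity) hε3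
        _ ≤ 257 * 40 * 256 * 8 * C2 * K ^ 3 / ε ^ 3 := by
            exact div_le_div_of_nonneg_right (EHF_r5 hK1 hK3 hC2b) (by positivity)
        _ = A * K ^ 3 := by rw [hA]; ring
        _ ≤ L := hAK
        _ ≤ y := hLL4.trans hy1
    rw [div_le_iff₀ (by linarith)]
    rw [div_le_iff₀ hδ0] at h4
    linarith
  -- the sum
  set D : ℝ := ∑ p ∈ PQ Q y, 1 / (p : ℝ) with hD
  have hD0 : 0 ≤ D := Finset.sum_nonneg fun p _ => by positivity
  have hDany : ∀ z : ℕ, ∑ p ∈ PQ Q z, 1 / (p : ℝ) ≤ Real.log L + C1 := by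
    intro z
    have h4 : ∑ p ∈ PQ Q z, 1 / (p : ℝ) ≤ ∑ p ∈ (Icc 1 Q).filter Nat.Prime, 1 / (p : ℝ) := by
      refine Finset.sum_le_sum_of_subset_of_nonneg ?_ fun p _ _ => by positivity
      intro p hp
      unfold PQ at hp
      rw [Finset.mem_filter] at hp ⊢
      exact ⟨hp.1, hp.2.1⟩
    linarith
  have hDK : D ≤ K := by
    have := hDany y
    linarith
  obtain ⟨hlo, hhi⟩ := h2 Q U y δ c (fun n => SA (OP U) y n) (by omega) hyQ hδ0 hδ1 hyδ
    (fun n => GLAW_per _ _ _) (fun n => by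
      intro p hp
      have k := (Finset.mem_filter.1 (Finset.mem_filter.1 hp).1).1
      rw [Finset.mem_Icc] at k ⊢
      exact ⟨by omega, k.2⟩) hw
  simp only [GLAW_left _ _ _ _ hyQ] at hlo hhi
  rw [← hD, ← hM, ← hL, ← hSy, ← hSQ] at hlo
  rw [← hD, ← hM, ← hL, ← hSy, ← hSQ] at hhi
  have hxb := h3 Q y c (by omega) hyQ hw
  rw [← hD, ← hM, ← hL, ← hX] at hxb
  have hVlo : GLAW_V Q y ≤ Real.exp (-D) := GLAW_V_le Q y (by omega)
  have hVhi : Real.exp (-D) ≤ Real.exp (10 / (y : ℝ)) * GLAW_V Q y := GLAW_V_ge Q y (by omega) hyQ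
  have hV0 : 0 ≤ GLAW_V Q y := GLAW_V_nonneg (by omega)
  have hVQ0 : 0 ≤ GLAW_V Q 2 := GLAW_V_nonneg le_rfl
  have hyp : (0 : ℝ) < y := by linarith
  -- the exponentials
  have hexplo : Real.exp (-D) * (1 - ε / 32) ≤ Real.exp (-((1 + 8 * δ) * D)) := by
    have h4 : -((1 + 8 * δ) * D) = -D + -(8 * δ * D) := by ring
    rw [h4, Real.exp_add]
    refine mul_le_mul_of_nonneg_left ?_ (Real.exp_pos _).le
    have h5 := Real.add_one_le_exp (-(8 * δ * D))
    have h6 : 8 * δ * D ≤ ε / 32 := by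
      have := EHF_r7 hδK hδ0 hDK
      linarith
    linarith
  have hKL : K ≤ L := by
    have g1 : 1 ≤ A := EHF_r11 hA hC2b hε (hε3.trans hε1)
    have g2 : K ^ 3 ≤ A * K ^ 3 := le_mul_of_one_le_left (by positivity) g1
    linarith
  have hAL : A ≤ L := by
    have g1 : 1 ≤ K ^ 3 := one_le_pow₀ hK1
    have g2 : A ≤ A * K ^ 3 := le_mul_of_one_le_right hA0.le g1
    linarith
  have hCL : 1280 * C2 ≤ ε * L := GLAW_r12 hA hC2b hε hε1 hAL
  have h2y : 10 / (y : ℝ) ≤ ε / 128 := by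
    rw [div_le_div_iff₀ hyp (by norm_num)]
    have k1 : ε * L ≤ ε * y := mul_le_mul_of_nonneg_left (hLL4.trans hy1) hε.le
    linarith
  have hexp1 : Real.exp (10 / (y : ℝ)) ≤ 1 + ε / 64 := by
    have := EHF_FINU_exp (x := 10 / (y : ℝ)) (by positivity) (by linarith)
    linarith
  have hexphi : Real.exp (-((1 - 3 * δ) * D)) ≤ Real.exp (-D) * (1 + ε / 32) := by
    have h4 : -((1 - 3 * δ) * D) = -D + 3 * δ * D := by ring
    rw [h4, Real.exp_add]
    refine mul_le_mul_of_nonneg_left ?_ (Real.exp_pos _).le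
    have h6 : 3 * δ * D ≤ 3 * (ε / 256) := by
      have := EHF_r7 hδK hδ0 hDK
      linarith
    have h5 := EHF_FINU_exp (x := 3 * δ * D) (by positivity) (by linarith)
    linarith
  -- the errors
  have hlogy : 1 ≤ Real.log y := by
    rw [Real.le_log_iff_exp_le (by linarith)]
    have := Real.exp_one_lt_d9
    linarith
  have hVQ4 : 4 / (C2 * L) ≤ GLAW_V Q 2 := by
    have k1 := GLAW_V_ge Q 2 le_rfl (by omega)
    have k2 : Real.exp (-(Real.log L + C1)) ≤ Real.exp (-∑ p ∈ PQ Q 2, 1 / (p : ℝ)) :=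
      Real.exp_le_exp.2 (by linarith [hDany 2])
    have k3 : Real.exp (-(Real.log L + C1)) = 1 / (L * Real.exp C1) := by
      rw [Real.exp_neg, Real.exp_add, Real.exp_log hL0, one_div]
    have k4 : (10 : ℝ) / ((2 : ℕ) : ℝ) = 5 := by norm_num
    rw [k4] at k1
    have k5 : 1 / (L * Real.exp C1) ≤ Real.exp 5 * GLAW_V Q 2 := by
      rw [← k3]
      exact k2.trans k1
    have k6 : 4 / (C2 * L) = (1 / (L * Real.exp C1)) / Real.exp 5 := by
      rw [hC2, Real.exp_add]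
      have a1 := (Real.exp_pos 5).ne'
      have a2 := (Real.exp_pos C1).ne'
      field_simp
    rw [k6, div_le_iff₀ (Real.exp_pos _)]
    linarith
  have hC0 : 0 < C2 := by linarith
  have hVQ : 1 / (C2 * L) ≤ GLAW_V Q 2 := by
    refine le_trans ?_ hVQ4
    exact div_le_div_of_nonneg_right (by norm_num) (by positivity)
  have hNV : (U : ℝ) * (1 / (C2 * L ^ 2)) ≤ N * GLAW_V Q 2 := by
    calc (U : ℝ) * (1 / (C2 * L ^ 2)) = (U : ℝ) / (4 * L) * (4 / (C2 * L)) := by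
          field_simp
      _ ≤ N * GLAW_V Q 2 := mul_le_mul hNlo hVQ4 (by positivity) hN0
  have hE : (D / δ + 1) * ((U / y + 1) * (20 * (L / Real.log y) / δ)) ≤
      ε / 8 * (N * GLAW_V Q 2) := by
    refine (GLAW_err hε hε1 hC2b hA q2 hK1 hAK hy1 hUL hδ0 hinv hD0 hDK hlogy).trans ?_
    exact mul_le_mul_of_nonneg_left hNV (by positivity)
  have hE' : (D / δ + 1) * ((U / y + 1) * (2 * (L / Real.log y) / δ)) ≤
      ε / 8 * (N * GLAW_V Q 2) := by
    refine le_trans ?_ hE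
    have f1 : (0 : ℝ) ≤ D / δ + 1 := by positivity
    have f2 : (0 : ℝ) ≤ (U : ℝ) / y + 1 := by positivity
    have f3 : (0 : ℝ) ≤ L / Real.log y / δ := by
      have : 0 ≤ L / Real.log y := div_nonneg (by linarith) (by linarith)
      exact div_nonneg this hδ0.le
    refine mul_le_mul_of_nonneg_left (mul_le_mul_of_nonneg_left ?_ f2) f1
    rw [mul_div_assoc, mul_div_assoc]
    exact mul_le_mul_of_nonneg_right (by norm_num) f3
  -- the large primes
  have hXX : (1 / (y : ℝ)) * (2 * D + 60 * (L / Real.log y)) ≤ (ε / 2) / 8 * GLAW_V Q 2 :=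
    EHF_lar (by positivity) hC2b q2 hy1 hD0 (hDK.trans hKL) hlogy hVQ (by linarith)
  have hXG : 2 * X ≤ ε / 8 * GQ := by
    have k1 : X ≤ (ε / 2) / 8 * GQ := by
      calc X ≤ (1 / (y : ℝ)) * (2 * D + 60 * (L / Real.log y)) * M := hxb
        _ ≤ (ε / 2) / 8 * GLAW_V Q 2 * M := mul_le_mul_of_nonneg_right hXX hM0
        _ = (ε / 2) / 8 * (GLAW_V Q 2 * M) := by ring
        _ ≤ (ε / 2) / 8 * GQ := mul_le_mul_of_nonneg_left hMG (by positivity)
    linarith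
  have hEG : (D / δ + 1) * ((U / y + 1) * (20 * (L / Real.log y) / δ)) * M ≤ ε / 8 * (N * GQ) := by
    calc _ ≤ ε / 8 * (N * GLAW_V Q 2) * M := mul_le_mul_of_nonneg_right hE hM0
      _ = ε / 8 * (N * (GLAW_V Q 2 * M)) := by ring
      _ ≤ ε / 8 * (N * GQ) := by gcongr
  have hEG' : (D / δ + 1) * ((U / y + 1) * (2 * (L / Real.log y) / δ)) * M ≤ ε / 8 * (N * GQ) := by
    calc _ ≤ ε / 8 * (N * GLAW_V Q 2) * M := mul_le_mul_of_nonneg_right hE' hM0
      _ = ε / 8 * (N * (GLAW_V Q 2 * M)) := by ring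
      _ ≤ ε / 8 * (N * GQ) := by gcongr
  have hP0 : 0 ≤ N * GQ := mul_nonneg hN0 hGQ0
  -- the lower bound
  have hTlo : (1 - ε / 32) * (1 - ε / 8) * (1 - ε / 8) * (N * GQ) ≤
      Real.exp (-((1 + 8 * δ) * D)) * Sy := by
    have g1 : (0 : ℝ) ≤ 1 - ε / 32 := by linarith
    have g2 : (0 : ℝ) ≤ 1 - ε / 8 := by linarith
    have g3 : (1 - ε / 8) * GQ ≤ Real.exp (-D) * Gy := by
      have : GLAW_V Q y * Gy ≤ Real.exp (-D) * Gy := mul_le_mul_of_nonneg_right hVlo hGy0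
      linarith
    calc (1 - ε / 32) * (1 - ε / 8) * (1 - ε / 8) * (N * GQ)
        = (1 - ε / 32) * (1 - ε / 8) * N * ((1 - ε / 8) * GQ) := by ring
      _ ≤ (1 - ε / 32) * (1 - ε / 8) * N * (Real.exp (-D) * Gy) :=
          mul_le_mul_of_nonneg_left g3 (by positivity)
      _ = (Real.exp (-D) * (1 - ε / 32)) * ((1 - ε / 8) * N * Gy) := by ring
      _ ≤ Real.exp (-((1 + 8 * δ) * D)) * Sy :=
          mul_le_mul hexplo hmlo (by positivity) (Real.exp_pos _).le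
  have hThi : Real.exp (-((1 - 3 * δ) * D)) * Sy ≤
      (1 + ε / 32) * (1 + ε / 8) * (1 + ε / 64) * (N * GQ) := by
    have g3 : Real.exp (-D) * Gy ≤ (1 + ε / 64) * GQ := by
      calc Real.exp (-D) * Gy ≤ (Real.exp (10 / (y : ℝ)) * GLAW_V Q y) * Gy :=
            mul_le_mul_of_nonneg_right hVhi hGy0
        _ = Real.exp (10 / (y : ℝ)) * (GLAW_V Q y * Gy) := by ring
        _ ≤ (1 + ε / 64) * GQ := mul_le_mul hexp1 hVG (by positivity) (by linarith)
    calc Real.exp (-((1 - 3 * δ) * D)) * Sy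
        ≤ (Real.exp (-D) * (1 + ε / 32)) * ((1 + ε / 8) * N * Gy) :=
          mul_le_mul hexphi hmhi hSy0 (by positivity)
      _ = (1 + ε / 32) * (1 + ε / 8) * N * (Real.exp (-D) * Gy) := by ring
      _ ≤ (1 + ε / 32) * (1 + ε / 8) * N * ((1 + ε / 64) * GQ) :=
          mul_le_mul_of_nonneg_left g3 (by positivity)
      _ = (1 + ε / 32) * (1 + ε / 8) * (1 + ε / 64) * (N * GQ) := by ring
  rw [abs_le]
  constructor
  · have := mul_le_mul_of_nonneg_right (EHF_r9 hε hε1) hP0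
    linarith
  · have := mul_le_mul_of_nonneg_right (EHF_r10 hε hε1) hP0
    have h9 : 0 ≤ ε / 8 * (N * GQ) := by positivity
    linarith

end Pool.Agent.N422.GB
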