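import Pool.Agent.N422.GB.Stm
import Pool.Agent.N422.LR.HX

/-! Project GB (helper422), part HXA: one window for a real function, sites in a given set, by helper234 after
helper394's `Pool.Agent.N422.LR.t_HX`. -/

set_option autoImplicit false

open Finset

namespace Pool.Agent.N422.GB

open Pool.Agent.N422.NW Pool.Agent.N422.SL Pool.Agent.N422.WS Pool.Agent.N422.LG Pool.Agent.N422.LR

theorem t_HXA (h : S_WX) : S_HXA := by
  intro Q U z z' b l c S hSU hz hzz hzQ hb1 hb hl hl2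
  have hzR : (1 : ℝ) < z := by exact_mod_cast (by omega : 1 < z)
  have hlogz : 0 < Real.log z := Real.log_pos hzR
  have hQR1 : (z : ℝ) ≤ Q := by exact_mod_cast hzz.trans hzQ
  have hlogQ : Real.log z ≤ Real.log Q := Real.log_le_log (by linarith) hQR1
  have hlogQp : 0 < Real.log Q := hlogz.trans_le hlogQ
  have hlogQ0 : 0 ≤ Real.log Q := hlogQp.le
  set P : Finset ℕ := PQ z' z with hPdef
  have hPm : ∀ p, p ∈ P ↔ (1 ≤ p ∧ p ≤ z') ∧ p.Prime ∧ z < p := by
    intro p
    rw [hPdef, PQ, mem_filter, mem_Icc]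
  set A : Finset ℕ := (Icc 1 Q).filter Nat.Prime with hA
  have hPA : P ⊆ A := by
    intro p hp
    have h1 := (hPm p).1 hp
    rw [hA, mem_filter, mem_Icc]
    exact ⟨⟨h1.1.1, h1.1.2.trans hzQ⟩, h1.2.1⟩
  set R : ℕ := ∏ p ∈ A \ P, p with hR
  set K : ℕ := ∏ p ∈ P, p with hK
  have hM : PP Q = R * K := (Finset.prod_sdiff hPA).symm
  have hR0 : 0 < R := prod_pos fun p hp => (mem_filter.1 (mem_sdiff.1 hp).1).2.pos
  have hK0 : 0 < K := prod_pos fun p hp => ((hPm p).1 hp).2.1.pos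
  have hP : ∀ p ∈ P, p.Prime ∧ z < p ∧ ¬ p ∣ R := by
    intro p hp
    have h1 := (hPm p).1 hp
    refine ⟨h1.2.1, h1.2.2, fun hdv => ?_⟩
    obtain ⟨q', hq', h2⟩ := (Prime.dvd_finsetProd_iff h1.2.1.prime _).1 hdv
    have h3 := mem_sdiff.1 hq'
    have h4 := (Nat.prime_dvd_prime_iff_eq h1.2.1 (mem_filter.1 h3.1).2).1 h2
    rw [← h4] at h3
    exact h3.2 hp
  have hQR : ∀ p : ℕ, p.Prime → p ≤ Q → p ∈ P ∨ p ∣ R := by
    intro p hpp hpQ
    by_cases hp : p ∈ P
    · exact Or.inl hp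
    · refine Or.inr (Finset.dvd_prod_of_mem (fun p => p) (mem_sdiff.2 ⟨?_, hp⟩))
      rw [hA, mem_filter, mem_Icc]
      exact ⟨⟨hpp.one_lt.le, hpQ⟩, hpp⟩
  have hsmall : ∀ p : ℕ, p.Prime → p ≤ z → p ∣ R := by
    intro p hpp hpz
    rcases hQR p hpp ((hpz.trans hzz).trans hzQ) with h1 | h1
    · have := ((hPm p).1 h1).2.2
      omega
    · exact h1
  -- the levels
  set La : ℝ := Real.log Q / Real.log z with hLa
  have hLa1 : 1 ≤ La := by
    rw [hLa, one_le_div hlogz]
    exact hlogQ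
  obtain ⟨n, hn⟩ : ∃ n : ℕ, 2 * La ≤ n := exists_nat_ge _
  have hnpos : (0 : ℝ) < n := by linarith
  set m : ℕ := ⌊(n : ℝ) / La⌋₊ with hm
  have hnL : 2 ≤ (n : ℝ) / La := by
    rw [le_div_iff₀ (by linarith)]
    exact hn
  have hm1 : (n : ℝ) / La - 1 < m := by
    have := Nat.lt_floor_add_one ((n : ℝ) / La)
    rw [← hm] at this
    linarith
  have hm2 : (n : ℝ) / La / 2 ≤ m := by linarith
  have hmpos : 0 < m := by
    have : (0 : ℝ) < m := by linarith
    exact_mod_cast this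
  have hmR : (0 : ℝ) < m := by exact_mod_cast hmpos
  have hnm : (n : ℝ) / m ≤ 2 * La := by
    rw [div_le_iff₀ hmR]
    have h3 : (n : ℝ) = 2 * La * ((n : ℝ) / La / 2) := by
      field_simp
    calc (n : ℝ) = 2 * La * ((n : ℝ) / La / 2) := h3
      _ ≤ 2 * La * m := mul_le_mul_of_nonneg_left hm2 (by linarith)
  set ν : ℕ → ℕ := fun p => ⌊(n : ℝ) * Real.log p / Real.log Q⌋₊ with hν
  have hνm : ∀ p ∈ P, m ≤ ν p := by
    intro p hp
    refine Nat.floor_le_floor ?_
    rw [hLa, div_div_eq_mul_div]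
    refine div_le_div_of_nonneg_right ?_ hlogQ0
    refine mul_le_mul_of_nonneg_left ?_ hnpos.le
    refine Real.log_le_log (by linarith) ?_
    exact_mod_cast (hP p hp).2.1.le
  have hlev : ∀ d, 1 ≤ d → d ≤ Q → ∑ p ∈ P.filter (fun p => p ∣ d), ν p ≤ n := by
    intro d hd1 hd2
    have h3 : ∏ p ∈ P.filter (fun p => p ∣ d), p ∣ d := by
      refine Finset.prod_primes_dvd d ?_ ?_
      · intro p hp
        exact (hP p (mem_filter.mp hp).1).1.prime
      · intro p hp
        exact (mem_filter.mp hp).2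
    have h4 : ∏ p ∈ P.filter (fun p => p ∣ d), p ≤ Q := (Nat.le_of_dvd hd1 h3).trans hd2
    have h5 : ∑ p ∈ P.filter (fun p => p ∣ d), Real.log p ≤ Real.log Q := by
      rw [← Real.log_prod (fun p hp => by
        have := (hP p (mem_filter.mp hp).1).1.pos
        positivity)]
      have h4' : ((∏ p ∈ P.filter (fun p => p ∣ d), p : ℕ) : ℝ) ≤ Q := Nat.cast_le.mpr h4
      rw [Nat.cast_prod] at h4'
      refine Real.log_le_log ?_ h4'
      refine prod_pos fun p hp => ?_
      have := (hP p (mem_filter.mp hp).1).1.pos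
      positivity
    have h6 : ((∑ p ∈ P.filter (fun p => p ∣ d), ν p : ℕ) : ℝ) ≤ n := by
      push_cast
      calc ∑ p ∈ P.filter (fun p => p ∣ d), ((ν p : ℕ) : ℝ)
          ≤ ∑ p ∈ P.filter (fun p => p ∣ d), (n : ℝ) * Real.log p / Real.log Q := by
            refine sum_le_sum fun p _ => ?_
            refine Nat.floor_le ?_
            have := Real.log_natCast_nonneg p
            positivity
        _ = n * (∑ p ∈ P.filter (fun p => p ∣ d), Real.log p) / Real.log Q := by
            rw [← sum_div, ← mul_sum]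
        _ ≤ n * Real.log Q / Real.log Q := by
            refine div_le_div_of_nonneg_right ?_ hlogQ0
            exact mul_le_mul_of_nonneg_left h5 hnpos.le
        _ = n := by field_simp
    exact_mod_cast h6
  -- the sites
  have hS1 : ∀ r t, SA S z (r + R * t) = SA S z r := by
    intro r t
    unfold SA
    refine filter_congr fun a _ => ?_
    refine forall₂_congr fun p hp => ?_
    have h1 := mem_filter.1 hp
    have h2 := mem_Icc.1 h1.1
    have h3 : p ∣ R * t := (hsmall p h1.2 h2.2).mul_right t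
    have e : r + R * t + a = R * t + (r + a) := by ring
    rw [e, Nat.dvd_add_right h3]
  have hS2 : ∀ r t, SA S z' (r + R * t) = HX_left P (SA S z r) (r + R * t) := by
    intro r t
    rw [← hS1 r t]
    unfold HX_left SA
    rw [filter_filter]
    refine filter_congr fun a _ => ?_
    constructor
    · intro h1
      refine ⟨fun p hp => ?_, fun p hp => ?_⟩
      · have h2 := mem_filter.1 hp
        have h3 := mem_Icc.1 h2.1
        exact h1 p (mem_filter.2 ⟨mem_Icc.2 ⟨h3.1, h3.2.trans hzz⟩, h2.2⟩)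
      · have h2 := (hPm p).1 hp
        exact h1 p (mem_filter.2 ⟨mem_Icc.2 h2.1, h2.2.1⟩)
    · rintro ⟨h1, h2⟩ p hp
      have h3 := mem_filter.1 hp
      have h4 := mem_Icc.1 h3.1
      rcases le_or_gt p z with h5 | h5
      · exact h1 p (mem_filter.2 ⟨mem_Icc.2 ⟨h4.1, h5⟩, h3.2⟩)
      · exact h2 p ((hPm p).2 ⟨h4, h3.2, h5⟩)
  have hMR : (0 : ℝ) < PP Q := by
    rw [hM]
    exact_mod_cast Nat.mul_pos hR0 hK0
  have hmP : ∀ G : ℕ → ℝ, mP Q G * (PP Q : ℝ) = ∑ r ∈ range R, ∑ t ∈ range K, G (r + R * t) := by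
    intro G
    unfold mP
    rw [div_mul_cancel₀ _ hMR.ne', hM, HX_range R K hR0]
  have h3 := sum_le_sum fun r (_ : r ∈ range R) =>
    HX_cls h Q R r m n b z U l P (SA S z r) ν c hP hQR hz (by omega) hb ((filter_subset _ _).trans hSU) hνm hmpos hlev hl hl2
  have e1 : ∑ r ∈ range R, ∑ t ∈ range K, max (ws Q c (r + R * t)) 0 *
        (((SA S z r).card : ℝ) - ((HX_left P (SA S z r) (r + R * t)).card : ℝ)) =
      (mP Q (fun n => max (ws Q c n) 0 * ((SA S z n).card : ℝ)) -
        mP Q (fun n => max (ws Q c n) 0 * ((SA S z' n).card : ℝ))) * PP Q := by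
    rw [sub_mul, hmP, hmP, ← sum_sub_distrib]
    refine sum_congr rfl fun r _ => ?_
    rw [← sum_sub_distrib]
    refine sum_congr rfl fun t _ => ?_
    rw [hS1, hS2]
    ring
  have e2 : ∑ r ∈ range R, ((SA S z r).card : ℝ) * ∑ t ∈ range K, max (ws Q c (r + R * t)) 0 =
      mP Q (fun n => max (ws Q c n) 0 * ((SA S z n).card : ℝ)) * PP Q := by
    rw [hmP]
    refine sum_congr rfl fun r _ => ?_
    rw [mul_sum]
    refine sum_congr rfl fun t _ => ?_
    rw [hS1]
    ring
  have e3 : ∑ r ∈ range R, ∑ t ∈ range K, max (ws Q c (r + R * t)) 0 =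
      mP Q (fun n => max (ws Q c n) 0) * PP Q := by
    rw [hmP]
  have e4 : ∑ r ∈ range R, ∑ t ∈ range K, max (-ws Q c (r + R * t)) 0 =
      mP Q (fun n => max (-ws Q c n) 0) * PP Q := by
    rw [hmP]
  rw [e1, sum_add_distrib, ← mul_sum, e2, ← mul_sum, ← sum_div, sum_add_distrib, ← mul_sum, e3, e4] at h3
  have hW : 0 ≤ mP Q (fun n => max (ws Q c n) 0) :=
    div_nonneg (sum_nonneg fun _ _ => le_max_right _ _) (Nat.cast_nonneg _)
  have hV : 0 ≤ mP Q (fun n => max (-ws Q c n) 0) :=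
    div_nonneg (sum_nonneg fun _ _ => le_max_right _ _) (Nat.cast_nonneg _)
  have hJR : ((U / b + 1 : ℕ) : ℝ) ≤ (U : ℝ) / b + 1 := by
    push_cast
    have := Nat.cast_div_le (α := ℝ) (m := U) (n := b)
    linarith
  have h5 : mP Q (fun n => max (ws Q c n) 0 * ((SA S z n).card : ℝ)) -
        mP Q (fun n => max (ws Q c n) 0 * ((SA S z' n).card : ℝ)) ≤
      (1 + 11 * l + 2 * ((b : ℝ) / z)) * (∑ p ∈ P, 1 / (p : ℝ)) *
        mP Q (fun n => max (ws Q c n) 0 * ((SA S z n).card : ℝ)) +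
      ((U / b + 1 : ℕ) : ℝ) * (((n : ℝ) / m * mP Q (fun n => max (ws Q c n) 0) +
        mP Q (fun n => max (-ws Q c n) 0)) / l) := by
    refine le_of_mul_le_mul_right ?_ hMR
    refine h3.trans (le_of_eq ?_)
    ring
  refine h5.trans ?_
  refine add_le_add le_rfl ?_
  refine mul_le_mul hJR ?_ (by positivity) (by positivity)
  refine div_le_div_of_nonneg_right ?_ hl.le
  exact add_le_add (mul_le_mul_of_nonneg_right hnm hW) le_rfl

end Pool.Agent.N422.GB
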