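import Pool.Agent.N422.LR.Stm

/-! Project GB (helper422): no sieve (real weights) of level `Q` detects even numbers whose least Goldbach prime exceeds
`(log Q)^(4+ε)`: definitions and statements of the self-contained pieces. -/

set_option autoImplicit false

open Finset

namespace Pool.Agent.N422.GB

open Pool.Agent.N422.NW Pool.Agent.N422.SL Pool.Agent.N422.WS Pool.Agent.N422.LG Pool.Agent.N422.LR

/-- the `h ∈ A` for which `n + h` has no prime factor `≤ z` -/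
def SA (A : Finset ℕ) (z n : ℕ) : Finset ℕ := A.filter (fun h => ∀ p ∈ (Icc 1 z).filter Nat.Prime, ¬ p ∣ n + h)

/-- one window for a real function, sites in a given set (GB/HXA) -/
def S_HXA : Prop := ∀ (Q U z z' b : ℕ) (l : ℝ) (c : ℕ → ℕ → ℝ) (A : Finset ℕ), A ⊆ Icc 1 U → 2 ≤ z → z ≤ z' → z' ≤ Q →
  1 ≤ b → 2 * b ≤ z → 0 < l → l ≤ 1 / 16 →
  mP Q (fun n => max (ws Q c n) 0 * ((SA A z n).card : ℝ)) - mP Q (fun n => max (ws Q c n) 0 * ((SA A z' n).card : ℝ)) ≤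
    (1 + 11 * l + 2 * (b / z)) * (∑ p ∈ PQ z' z, 1 / (p : ℝ)) *
      mP Q (fun n => max (ws Q c n) 0 * ((SA A z n).card : ℝ)) +
    (U / b + 1) * (((2 * (Real.log Q / Real.log z)) * mP Q (fun n => max (ws Q c n) 0) +
      mP Q (fun n => max (-ws Q c n) 0)) / l)

/-- the recursion over the scales (GB/RXA) -/
def S_RXA : Prop := ∃ C : ℝ, 1 ≤ C ∧ ∀ (Q U y : ℕ) (δ K : ℝ) (c : ℕ → ℕ → ℝ) (A : Finset ℕ), A ⊆ Icc 1 U → 2 ≤ y →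
  y ≤ Q → 0 < δ → δ ≤ 1 / C → 4 / (y : ℝ) ≤ δ → 0 < mP Q (ws Q c) →
  (∀ z : ℕ, y ≤ z → z ≤ Q → Real.exp (-(∑ p ∈ PQ Q z, 1 / (p : ℝ))) * (Real.log Q / Real.log z) ≤ K) →
  Real.exp (-((1 + C * δ) * ∑ p ∈ PQ Q y, 1 / (p : ℝ))) * mP Q (fun n => max (ws Q c n) 0 * ((SA A y n).card : ℝ)) -
    ((∑ p ∈ PQ Q y, 1 / (p : ℝ)) / δ + 1) * ((U / y + 1) * (C * K / δ ^ 2)) * mP Q (fun n => max (ws Q c n) 0) ≤
    mP Q (fun n => max (ws Q c n) 0 * ((SA A Q n).card : ℝ))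

/-- the odd primes `≤ U` -/
def OP (U : ℕ) : Finset ℕ := (Icc 3 U).filter Nat.Prime

/-- lower bound sieve for the primes `h ≤ U` with `n + h` free of small primes (GB/LOWG) -/
def S_LOWG (e : ℝ) : Prop := ∀ ε : ℝ, 0 < ε → ∃ κ : ℝ, 0 < κ ∧ ∃ y0 : ℕ, ∀ y : ℕ, y0 ≤ y → ∀ U : ℕ,
  (y : ℝ) ^ (e + ε) ≤ U → ∀ n : ℕ, Even n → κ * (U / (Real.log U * Real.log y)) ≤ ((SA (OP U) y n).card : ℝ)

/-- the theorem (GB/FXG) -/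
def S_FXG (e : ℝ) : Prop := ∀ ε : ℝ, 0 < ε → ∃ Q0 : ℕ, ∀ Q : ℕ, Q0 ≤ Q → ∀ U : ℕ, Real.log Q ^ (e + ε) ≤ U →
  ∀ c : ℕ → ℕ → ℝ, (∀ n, Odd n → wt Q c n ≤ 0) → (∀ n, (SA (OP U) Q n).Nonempty → wt Q c n ≤ 0) → mQ Q (wt Q c) ≤ 0

/-- the theorem for `N - h` (GB/GOLD) -/
def S_GOLD (e : ℝ) : Prop := ∀ ε : ℝ, 0 < ε → ∃ Q0 : ℕ, ∀ Q : ℕ, Q0 ≤ Q → ∀ U : ℕ, Real.log Q ^ (e + ε) ≤ U →
  ∀ c : ℕ → ℕ → ℝ, (∀ N, Odd N → wt Q c N ≤ 0) →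
  (∀ N, (∃ h : ℕ, h.Prime ∧ h ≤ U ∧ ∀ p : ℕ, p.Prime → p ≤ Q → ¬ N ≡ h [MOD p]) → wt Q c N ≤ 0) → mQ Q (wt Q c) ≤ 0

end Pool.Agent.N422.GB
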