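import Pool.Agent.N422.GB.Stm
import Pool.Agent.N422.EH.Stm

/-! Project GB (helper422), second part: the two-sided law for the primes `h ≤ U` with `n + h` free of primes `≤ Q`. -/

set_option autoImplicit false

open Finset

namespace Pool.Agent.N422.GB

open Pool.Agent.N422.NW Pool.Agent.N422.SL Pool.Agent.N422.WS Pool.Agent.N422.LG Pool.Agent.N422.LR Pool.Agent.N422.EH

/-- the singular series -/
noncomputable def GS (z n : ℕ) : ℝ :=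
  ∏ p ∈ ((Icc 3 z).filter Nat.Prime).filter (fun p => ¬ p ∣ n), (1 - 1 / ((p : ℝ) - 1))

/-- the fundamental lemma (GB/GFU) -/
def S_GFU : Prop := ∃ C : ℕ, 1 ≤ C ∧ ∀ b : ℕ, ∃ y0 : ℕ, ∀ y : ℕ, y0 ≤ y → ∀ U : ℕ, y ^ (C * (b + 1)) ≤ U →
  ∀ n : ℕ, Even n →
  |((SA (OP U) y n).card : ℝ) - (OP U).card * GS y n| ≤ (1 / 2 : ℝ) ^ b * ((OP U).card * GS y n)

/-- the law (GB/GLAW) -/
def S_GLAW : Prop := ∃ C : ℕ, 1 ≤ C ∧ ∀ b : ℕ, ∃ Q0 : ℕ, ∀ Q : ℕ, Q0 ≤ Q → ∀ U : ℕ,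
  Real.log Q ^ (C * (b + 1)) ≤ U → U ≤ Q → ∀ c : ℕ → ℕ → ℝ, (∀ n, 0 ≤ wt Q c n) → (∀ n, Odd n → wt Q c n = 0) →
  |mQ Q (fun n => wt Q c n * ((SA (OP U) Q n).card : ℝ)) - (OP U).card * mQ Q (fun n => wt Q c n * GS Q n)| ≤
    (1 / 2 : ℝ) ^ b * ((OP U).card * mQ Q (fun n => wt Q c n * GS Q n))

end Pool.Agent.N422.GB
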